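import Pool.Agent.TH930.LT.Law

set_option autoImplicit false

/-! The choice of the parameters. -/

namespace Pool.Agent.TH930.LT

open Finset

/-- the rate, in bits -/
noncomputable def rate (p : ℝ) : ℝ := 1 - Real.binEntropy p / Real.log 2

lemma kappa_lt : Real.log 2 / Real.log 3 < 631 / 1000 := by
  have hl3 : 0 < Real.log 3 := Real.log_pos (by norm_num)
  rw [div_lt_iff₀ hl3]
  have h1 : Real.log ((2 : ℝ) ^ 84) < Real.log ((3 : ℝ) ^ 53) :=
    Real.log_lt_log (by positivity) (by norm_num)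
  rw [Real.log_pow, Real.log_pow] at h1
  push_cast at h1
  linarith

lemma rate_lt {p : ℝ} (h0 : 1 / 2 ≤ p) (h1 : p ≤ 631 / 1000) : rate p < 3 / 50 := by
  have hl0 : 0 < Real.log 2 := Real.log_pos (by norm_num)
  have h2 : Real.binEntropy (631 / 1000) ≤ Real.binEntropy p :=
    Real.binEntropy_strictAntiOn.antitoneOn ⟨by norm_num; linarith, by linarith⟩
      ⟨by norm_num, by norm_num⟩ h1
  have h3 : 33 * Real.log 2 ≤ 50 * Real.log (631 / 1000 : ℝ)⁻¹ := by
    have h : Real.log ((2 : ℝ) ^ 33) ≤ Real.log ((631 / 1000 : ℝ)⁻¹ ^ 50) :=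
      Real.log_le_log (by positivity) (by norm_num)
    rw [Real.log_pow, Real.log_pow] at h
    push_cast at h
    linarith
  have h4 : 143 * Real.log 2 ≤ 100 * Real.log (1 - 631 / 1000 : ℝ)⁻¹ := by
    have h : Real.log ((2 : ℝ) ^ 143) ≤ Real.log ((1 - 631 / 1000 : ℝ)⁻¹ ^ 100) :=
      Real.log_le_log (by positivity) (by norm_num)
    rw [Real.log_pow, Real.log_pow] at h
    push_cast at h
    linarith
  have h5 : 47 / 50 * Real.log 2 < Real.binEntropy (631 / 1000) := by
    unfold Real.binEntropy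
    linarith
  unfold rate
  have h6 : 47 / 50 < Real.binEntropy p / Real.log 2 := by
    rw [lt_div_iff₀ hl0]
    linarith
  linarith

lemma rate_pos {p : ℝ} (h0 : 1 / 2 < p) : 0 < rate p := by
  have hl0 : 0 < Real.log 2 := Real.log_pos (by norm_num)
  unfold rate
  have h1 : Real.binEntropy p < Real.log 2 := Real.binEntropy_lt_log_two.2 (by
    intro h
    rw [h] at h0
    norm_num at h0)
  have h2 : Real.binEntropy p / Real.log 2 < 1 := by rwa [div_lt_one hl0]
  linarith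

lemma rate_cont : Continuous rate := by
  unfold rate
  exact continuous_const.sub (Real.binEntropy_continuous.div_const _)

/-- `Et τ` is small -/
lemma exists_tau {κ : ℝ} (hκ : 0 < κ) : ∃ τ : ℝ, 0 < τ ∧ τ ≤ (1 / 4) / 1000000 ∧ Et τ < κ * τ := by
  refine ⟨min ((1 / 4) / 1000000) (κ / 1000000000), lt_min (by norm_num) (by positivity), min_le_left _ _, ?_⟩
  set τ := min ((1 / 4) / 1000000) (κ / 1000000000) with hτ
  have hτ0 : 0 < τ := lt_min (by norm_num) (by positivity)
  have hτ1 : τ ≤ κ / 1000000000 := min_le_right _ _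
  set u : ℝ := (1 / 4) / (4000 * τ) with hu
  have hu0 : 0 < u := by positivity
  have h1 : u ^ 2 / 2 < Real.exp u := by
    have := Real.quadratic_le_exp_of_nonneg hu0.le
    linarith
  have h2 : Et τ < 2 / u ^ 2 := by
    unfold Et
    rw [← hu, Real.exp_neg, inv_eq_one_div, div_lt_div_iff₀ (Real.exp_pos _) (by positivity)]
    linarith
  refine h2.trans_le ?_
  have h3 : u * τ = 1 / 16000 := by rw [hu]; field_simp; norm_num
  rw [div_le_iff₀ (by positivity)]
  have h4 : κ * τ * u ^ 2 = κ * (u * τ) * u := by ring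
  rw [h4, h3]
  have h5 : 1000000000 * τ * u ≤ κ * u := by
    apply mul_le_mul_of_nonneg_right _ hu0.le
    linarith
  have h6 : τ * u = 1 / 16000 := by rw [mul_comm]; exact h3
  nlinarith

theorem exists_param {p₀ : ℝ} (h0 : 1 / 2 < p₀) (h1 : p₀ ≤ 631 / 1000) :
    ∃ τ p c : ℝ, 0 < τ ∧ τ ≤ (1 / 4) / 1000000 ∧ 1 / 2 ≤ p ∧ p < p₀ ∧ rate p₀ < c ∧ c ≤ 3 / 50 ∧ c ≤ cs τ p := by
  have hr := rate_pos h0
  have hr2 := rate_lt h0.le h1
  obtain ⟨τ, hτ0, hτ1, hE⟩ := exists_tau (κ := rate p₀ / 2) (by positivity)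
  have hlim : Filter.Tendsto (fun p => (1 + τ) * rate p - Et τ) (nhds p₀) (nhds ((1 + τ) * rate p₀ - Et τ)) :=
    ((rate_cont.const_mul _).sub continuous_const).tendsto p₀
  have hgt : rate p₀ < (1 + τ) * rate p₀ - Et τ := by nlinarith
  have hev := hlim.eventually (lt_mem_nhds hgt)
  have hev2 : ∀ᶠ p in nhds p₀, 1 / 2 < p := lt_mem_nhds h0
  have h3 : ∃ᶠ p in nhds p₀, p < p₀ := by
    exact (frequently_lt_nhds p₀)
  obtain ⟨p, hp1, hp2, hp3⟩ := (h3.and_eventually (hev.and hev2)).exists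
  refine ⟨τ, p, min ((1 + τ) * rate p - Et τ) (3 / 50), hτ0, hτ1, hp3.le, hp1, lt_min hp2 hr2, min_le_right _ _, ?_⟩
  exact (min_le_left _ _).trans (le_of_eq rfl)

end Pool.Agent.TH930.LT
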