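import Pool.Agent.TH930.LT.OddMap
import Pool.Agent.Results.MP_a1568a_nt.AlmostAllDescent

set_option autoImplicit false

/-! Averages of the number of odd steps until the passage below `x^θ`. -/

namespace Pool.Agent.TH930.LT

open Finset Filter Topology Pool.Agent.Helper894.Collatz Pool.Agent.H377R2

lemma T_half (z : ℕ) : z ≤ 2 * T z := by
  unfold T; split_ifs <;> omega

/-- the regular starting points -/
def Reg (ε θ u : ℝ) (m : ℕ) : Prop := ∃ M : ℕ, ((T^[M] m : ℕ) : ℝ) ≤ Real.exp (θ * u) ∧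
  |(M : ℝ) - 2 / Real.log (4 / 3) * u| ≤ ε * u ∧
  ∀ j ≤ M, |Real.log (T^[j] m : ℕ) - (u - j / 2 * Real.log (4 / 3))| ≤ ε * u

lemma log43 : 1 / 4 ≤ Real.log (4 / 3) := by
  have := Real.one_sub_inv_le_log_of_pos (show (0 : ℝ) < 4 / 3 by norm_num)
  norm_num at this ⊢
  exact this

lemma log3_ge : 1 ≤ Real.log 3 := by
  have hl2' := Real.log_two_gt_d9
  have h6 : Real.log ((2 : ℝ) ^ 3) ≤ Real.log ((3 : ℝ) ^ 2) :=
    Real.log_le_log (by norm_num) (by norm_num)
  rw [Real.log_pow, Real.log_pow] at h6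
  push_cast at h6
  linarith

theorem reg_hit {ε θ u : ℝ} {m L : ℕ} (hm : m % 2 = 1) (hε1 : ε ≤ 1) (hεθ : ε < 1 - θ)
    (hu0 : 0 < u) (hu : 7 * Real.log 2 ≤ ε * u) (hL : 9 * u ≤ L) (hy : 18 * u ≤ Real.exp (θ * u))
    (h : Reg ε θ u m) : |(hit (Real.exp (θ * u)) m L : ℝ) - (1 - θ) / Real.log (4 / 3) * u| ≤ 8 * ε * u := by
  classical
  obtain ⟨M, h1, h2, h3⟩ := h
  set lam := Real.log (4 / 3) with hlam
  have hlam4 : 1 / 4 ≤ lam := log43
  have hlam0 : 0 < lam := by linarith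
  have hl2 := Real.log_two_lt_d9
  have hl2' := Real.log_two_gt_d9
  have hl3 := log3_ge
  have e43 : lam = 2 * Real.log 2 - Real.log 3 := by
    rw [hlam, Real.log_div (by norm_num) (by norm_num), show (4 : ℝ) = 2 ^ 2 by norm_num, Real.log_pow]
    push_cast; ring
  have hm1 : 1 ≤ m := by omega
  have hm0R : (0 : ℝ) < m := by exact_mod_cast hm1
  have hM9 : (M : ℝ) ≤ 9 * u := by
    have h4 := (abs_le.1 h2).2
    have h5 : 2 / lam * u ≤ 8 * u := by
      apply mul_le_mul_of_nonneg_right _ hu0.le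
      rw [div_le_iff₀ hlam0]; linarith
    nlinarith
  set y := Real.exp (θ * u) with hy'
  have hy0 : 0 < y := Real.exp_pos _
  have hlogy : Real.log y = θ * u := Real.log_exp _
  have hex : ∃ j, ((T^[j] m : ℕ) : ℝ) ≤ y := ⟨M, h1⟩
  set j := Nat.find hex with hj
  have hj1 : ((T^[j] m : ℕ) : ℝ) ≤ y := Nat.find_spec hex
  have hj2 : ∀ i < j, y < (T^[i] m : ℕ) := fun i hi => not_le.1 (Nat.find_min hex hi)
  have hjM : j ≤ M := Nat.find_min' hex h1
  have hjR : (j : ℝ) ≤ 9 * u := le_trans (by exact_mod_cast hjM) hM9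
  -- `j ≥ 1`
  have hp0 := h3 0 (Nat.zero_le _)
  simp only [Function.iterate_zero, id, Nat.cast_zero, zero_div, zero_mul, sub_zero] at hp0
  have hjpos : 0 < j := by
    by_contra hcon
    have h0 : j = 0 := by omega
    rw [h0] at hj1
    simp only [Function.iterate_zero, id] at hj1
    have h4 := Real.log_le_log hm0R hj1
    rw [hlogy] at h4
    have h5 := (abs_le.1 hp0).1
    nlinarith
  set v := T^[j] m with hv
  have hv0 : 0 < v := iter_pos hm1 j
  have hvR : (0 : ℝ) < v := by exact_mod_cast hv0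
  have hvy : y < 2 * v := by
    have h4 := hj2 (j - 1) (by omega)
    have h5 : T^[j - 1] m ≤ 2 * v := by
      have h6 : v = T (T^[j - 1] m) := by
        rw [hv, ← Function.iterate_succ_apply' T (j - 1) m]
        congr 2
        omega
      rw [h6]
      exact T_half _
    have h6 : ((T^[j - 1] m : ℕ) : ℝ) ≤ 2 * v := by exact_mod_cast h5
    linarith
  have hlv1 : Real.log v ≤ θ * u := by rw [← hlogy]; exact Real.log_le_log hvR hj1
  have hlv2 : θ * u ≤ Real.log 2 + Real.log v := by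
    rw [← hlogy, ← Real.log_mul (by norm_num) hvR.ne']
    exact Real.log_le_log hy0 hvy.le
  have hjv : (j : ℝ) ≤ v := by linarith
  have hod := od_at_passage hm1 hj1 hj2 hjv
  rw [← hv] at hod
  have hL' : od j m ≤ L := by
    have h4 : (od j m : ℝ) ≤ j := by exact_mod_cast od_le j m
    have h5 : (od j m : ℝ) ≤ L := by linarith
    exact_mod_cast h5
  rw [hit_eq hm hj1 hj2 hL']
  have hpj := h3 j hjM
  rw [← hv] at hpj
  set k := (od j m : ℝ) with hk
  -- combine
  have a1 := abs_le.1 hod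
  have a2 := abs_le.1 hpj
  have a3 := abs_le.1 hp0
  -- `j log 2` versus `(1-θ) u 2 log 2 / lam`
  set W : ℝ := j / 2 * lam - (1 - θ) * u with hW
  have hW1 : |W| ≤ ε * u + Real.log 2 := by
    rw [abs_le]; constructor <;> linarith
  have hjl : (j : ℝ) * Real.log 2 = (2 * Real.log 2 / lam) * ((1 - θ) * u) + (2 * Real.log 2 / lam) * W := by
    rw [hW]; field_simp; ring
  have hq : 2 * Real.log 2 / lam ≤ 28 / 5 := by
    rw [div_le_iff₀ hlam0]; linarith
  have hq0 : 0 ≤ 2 * Real.log 2 / lam := by positivity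
  have hW2 : |(2 * Real.log 2 / lam) * W| ≤ 28 / 5 * (ε * u + Real.log 2) := by
    rw [abs_mul, abs_of_nonneg hq0]
    exact mul_le_mul hq hW1 (abs_nonneg _) (by norm_num)
  have hmain : (2 * Real.log 2 / lam) * ((1 - θ) * u) - (1 - θ) * u = ((1 - θ) / lam * u) * Real.log 3 := by
    have : Real.log 3 = 2 * Real.log 2 - lam := by linarith
    rw [this]; field_simp
  have hW3 := abs_le.1 hW2
  have hfin : |(k - (1 - θ) / lam * u) * Real.log 3| ≤ 8 * ε * u := by
    rw [sub_mul, abs_le]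
    constructor <;> nlinarith
  rw [abs_mul, abs_of_pos (by linarith : 0 < Real.log 3)] at hfin
  have h9 : |k - (1 - θ) / lam * u| * 1 ≤ |k - (1 - θ) / lam * u| * Real.log 3 :=
    mul_le_mul_of_nonneg_left hl3 (abs_nonneg _)
  linarith

/-- the odd integers up to `x` -/
noncomputable def Od (x : ℝ) : Finset ℕ := (Icc 1 ⌊x⌋₊).filter fun m => m % 2 = 1

lemma card_odd (N : ℕ) : ((Icc 1 N).filter fun m => m % 2 = 1).card = (N + 1) / 2 := by
  induction N with
  | zero => simp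
  | succ N ih =>
    rw [← Finset.insert_Icc_right_eq_Icc_add_one (by omega), filter_insert]
    split_ifs with h
    · rw [card_insert_of_notMem (by simp), ih]; omega
    · rw [ih]; omega

lemma card_Od {x : ℝ} (hx : 0 ≤ x) : |2 * ((Od x).card : ℝ) - x| ≤ 1 := by
  unfold Od
  rw [card_odd]
  have h1 := Nat.floor_le hx
  have h2 := Nat.lt_floor_add_one x
  set N := ⌊x⌋₊
  have h3 : 2 * ((N + 1) / 2) ≤ N + 1 := Nat.mul_div_le _ _
  have h4 : N ≤ 2 * ((N + 1) / 2) := by omega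
  have h5 : 2 * (((N + 1) / 2 : ℕ) : ℝ) ≤ N + 1 := by exact_mod_cast h3
  have h6 : (N : ℝ) ≤ 2 * (((N + 1) / 2 : ℕ) : ℝ) := by exact_mod_cast h4
  rw [abs_le]
  constructor <;> linarith

lemma tendsto_Od : Tendsto (fun x : ℝ => 2 * ((Od x).card : ℝ) / x) atTop (𝓝 1) := by
  rw [tendsto_iff_norm_sub_tendsto_zero]
  have h1 : Tendsto (fun x : ℝ => 1 / x) atTop (𝓝 0) := by
    simpa using tendsto_inv_atTop_zero (𝕜 := ℝ)
  refine squeeze_zero' (Eventually.of_forall fun x => norm_nonneg _) ?_ h1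
  filter_upwards [eventually_gt_atTop 0] with x hx
  have h2 := card_Od hx.le
  have h3 : 2 * ((Od x).card : ℝ) / x - 1 = (2 * ((Od x).card : ℝ) - x) / x := by field_simp
  rw [h3, Real.norm_eq_abs, abs_div, abs_of_pos hx]
  exact div_le_div_of_nonneg_right h2 hx.le

end Pool.Agent.TH930.LT
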