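import Pool.Agent.TH930.LT.Avg

set_option autoImplicit false

/-! The averages. -/

namespace Pool.Agent.TH930.LT

open Finset Filter Topology Pool.Agent.Helper894.Collatz Pool.Agent.H377R2

open scoped Classical in
/-- few irregular points -/
theorem reg_card {ε θ : ℝ} (hε : 0 < ε) (hθ : 0 < θ) : ∀ᶠ x : ℝ in atTop,
    (((Od x).filter fun m => ¬ Reg ε θ (Real.log x) m).card : ℝ) ≤ x / Real.log x := by
  obtain ⟨B, hB⟩ := Pool.Agent.Results.MP_a1568a_nt.AlmostAllDescent.result ε 1 hε one_pos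
  have e1 : ∀ᶠ x : ℝ in atTop, Real.log x ^ B ≤ x ^ θ := by
    have h := (isLittleO_log_rpow_rpow_atTop B hθ).bound one_pos
    filter_upwards [h, eventually_ge_atTop 1] with x h1 h2
    rw [Real.norm_eq_abs, Real.norm_eq_abs, one_mul, abs_of_nonneg (Real.rpow_nonneg (Real.log_nonneg h2) _),
      abs_of_nonneg (Real.rpow_nonneg (by linarith) _)] at h1
    exact h1
  filter_upwards [hB, e1, eventually_gt_atTop 1] with x h1 h2 h3
  have hx0 : 0 < x := by linarith
  rw [Real.rpow_one] at h1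
  refine le_trans ?_ h1
  have hfin : {n : ℕ | 1 ≤ n ∧ (n : ℝ) ≤ x ∧
      ¬ ∃ m : ℕ, ((Pool.Agent.Results.MP_a1568a_nt.AlmostAllDescent.T^[m] n : ℕ) : ℝ) ≤ Real.log x ^ B ∧
        |(m : ℝ) - 2 / Real.log (4 / 3) * Real.log x| ≤ ε * Real.log x ∧
        ∀ j ≤ m, |Real.log (Pool.Agent.Results.MP_a1568a_nt.AlmostAllDescent.T^[j] n : ℕ) -
          (Real.log x - j / 2 * Real.log (4 / 3))| ≤ ε * Real.log x}.Finite := by
    apply (Set.finite_Iic ⌊x⌋₊).subset
    rintro n ⟨-, h2, -⟩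
    exact Nat.le_floor h2
  rw [← Set.ncard_coe_finset]
  have hsub : (((Od x).filter fun m => ¬ Reg ε θ (Real.log x) m : Finset ℕ) : Set ℕ) ⊆
      {n : ℕ | 1 ≤ n ∧ (n : ℝ) ≤ x ∧
      ¬ ∃ m : ℕ, ((Pool.Agent.Results.MP_a1568a_nt.AlmostAllDescent.T^[m] n : ℕ) : ℝ) ≤ Real.log x ^ B ∧
        |(m : ℝ) - 2 / Real.log (4 / 3) * Real.log x| ≤ ε * Real.log x ∧
        ∀ j ≤ m, |Real.log (Pool.Agent.Results.MP_a1568a_nt.AlmostAllDescent.T^[j] n : ℕ) -
          (Real.log x - j / 2 * Real.log (4 / 3))| ≤ ε * Real.log x} := by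
    intro n hn
    rw [mem_coe, mem_filter, Od, mem_filter, mem_Icc, Nat.le_floor_iff hx0.le] at hn
    obtain ⟨⟨⟨g1, g2⟩, g3⟩, g4⟩ := hn
    refine ⟨g1, g2, ?_⟩
    rintro ⟨m, k1, k2, k3⟩
    apply g4
    refine ⟨m, ?_, k2, k3⟩
    have e : Real.exp (θ * Real.log x) = x ^ θ := by
      rw [Real.rpow_def_of_pos hx0, mul_comm]
    rw [e]
    exact k1.trans h2
  exact_mod_cast Set.ncard_le_ncard hsub hfin

/-- THE AVERAGES -/
theorem avg {c C B θ κ : ℝ} {r : ℕ} (hB : 0 ≤ B) (hC : 0 ≤ C)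
    (hlaw : ∀ x y : ℝ, 2 ≤ x → 1 ≤ y →
      ({n : ℕ | 1 ≤ n ∧ (n : ℝ) ≤ x ∧ timeBad B y n}.ncard : ℝ) ≤ C * (Real.log x) ^ 3 * (x / y ^ c))
    (hθ0 : 0 < θ) (hθ1 : θ < 1) (hκ : 0 < κ) (hκr : κ * r < c * θ) :
    Tendsto (fun x : ℝ => (2 / x * ∑ m ∈ Od x, (hit (x ^ θ) m ⌊x ^ κ⌋₊ : ℝ) ^ r) / Real.log x ^ r) atTop
      (𝓝 (((1 - θ) / Real.log (4 / 3)) ^ r)) := by
  classical
  have hlam0 : 0 < Real.log (4 / 3) := by have := log43; linarith
  have hl2 : 0 < Real.log 2 := Real.log_pos (by norm_num)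
  set a : ℝ := (1 - θ) / Real.log (4 / 3) with ha
  have ha0 : 0 < a := div_pos (by linarith) hlam0
  set f : ℝ → ℝ := fun x => (2 / x * ∑ m ∈ Od x, (hit (x ^ θ) m ⌊x ^ κ⌋₊ : ℝ) ^ r) / Real.log x ^ r with hf
  -- the two sided estimate
  have key : ∀ ε : ℝ, 0 < ε → ε ≤ 1 → ε < 1 - θ → 8 * ε ≤ a → ∀ᶠ x : ℝ in atTop,
      (2 * ((Od x).card : ℝ) / x - 2 / Real.log x) * (a - 8 * ε) ^ r ≤ f x ∧
      f x ≤ (2 * ((Od x).card : ℝ) / x) * (a + 8 * ε) ^ r + 2 * B ^ r * (1 / Real.log x) +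
        2 * C * (Real.log x ^ 3 * x ^ (κ * r - c * θ)) := by
    intro ε hε hε1 hεθ hεa
    have e2 : ∀ᶠ x : ℝ in atTop, 18 * Real.log x ≤ x ^ θ := by
      have h := (isLittleO_log_rpow_atTop hθ0).bound (show (0 : ℝ) < 1 / 18 by norm_num)
      filter_upwards [h, eventually_ge_atTop 1] with x h1 h2
      rw [Real.norm_eq_abs, Real.norm_eq_abs, abs_of_nonneg (Real.log_nonneg h2),
        abs_of_nonneg (Real.rpow_nonneg (by linarith) _)] at h1
      linarith
    have e3 : ∀ᶠ x : ℝ in atTop, 10 * Real.log x ≤ x ^ κ := by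
      have h := (isLittleO_log_rpow_atTop hκ).bound (show (0 : ℝ) < 1 / 10 by norm_num)
      filter_upwards [h, eventually_ge_atTop 1] with x h1 h2
      rw [Real.norm_eq_abs, Real.norm_eq_abs, abs_of_nonneg (Real.log_nonneg h2),
        abs_of_nonneg (Real.rpow_nonneg (by linarith) _)] at h1
      linarith
    filter_upwards [reg_card hε hθ0, e2, e3, Real.tendsto_log_atTop.eventually_ge_atTop 1,
      Real.tendsto_log_atTop.eventually_ge_atTop (7 * Real.log 2 / ε), eventually_ge_atTop 2] with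
      x h1 h2 h3 h4 h5 h6
    have hx0 : 0 < x := by linarith
    set u := Real.log x with hu
    have hu0 : 0 < u := by linarith
    have hxθ : Real.exp (θ * u) = x ^ θ := by rw [Real.rpow_def_of_pos hx0, mul_comm]
    have hueps : 7 * Real.log 2 ≤ ε * u := by
      rw [div_le_iff₀ hε] at h5; linarith
    set L := ⌊x ^ κ⌋₊ with hL
    have hL9 : 9 * u ≤ L := by
      have := Nat.lt_floor_add_one (x ^ κ)
      rw [← hL] at this
      linarith
    have hLx : (L : ℝ) ≤ x ^ κ := Nat.floor_le (by positivity)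
    set y := x ^ θ with hy
    have hy1 : 1 ≤ y := Real.one_le_rpow (by linarith) hθ0.le
    set O := Od x with hO
    have hOm : ∀ m ∈ O, 1 ≤ m ∧ (m : ℝ) ≤ x ∧ m % 2 = 1 := by
      intro m hm
      rw [hO, Od, mem_filter, mem_Icc, Nat.le_floor_iff hx0.le] at hm
      exact ⟨hm.1.1, hm.1.2, hm.2⟩
    set E1 := O.filter (fun m => ¬ Reg ε θ u m) with hE1
    set E2 := O.filter (fun m => timeBad B y m) with hE2
    have hE2c : (E2.card : ℝ) ≤ C * u ^ 3 * (x / y ^ c) := by
      refine le_trans ?_ (hlaw x y h6 hy1)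
      have hfin : {n : ℕ | 1 ≤ n ∧ (n : ℝ) ≤ x ∧ timeBad B y n}.Finite := by
        apply (Set.finite_Iic ⌊x⌋₊).subset
        rintro n ⟨-, h2, -⟩
        exact Nat.le_floor h2
      rw [← Set.ncard_coe_finset]
      have hsub : ((E2 : Finset ℕ) : Set ℕ) ⊆ {n : ℕ | 1 ≤ n ∧ (n : ℝ) ≤ x ∧ timeBad B y n} := by
        intro n hn
        rw [mem_coe, hE2, mem_filter] at hn
        obtain ⟨g1, g2, -⟩ := hOm n hn.1
        exact ⟨g1, g2, hn.2⟩
      exact_mod_cast Set.ncard_le_ncard hsub hfin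
    have hreg : ∀ m ∈ O, m ∉ E1 → |(hit y m L : ℝ) - a * u| ≤ 8 * ε * u := by
      intro m hm hE
      have hR : Reg ε θ u m := by
        by_contra hcon
        exact hE (mem_filter.2 ⟨hm, hcon⟩)
      have := reg_hit (hOm m hm).2.2 hε1 hεθ hu0 hueps hL9 (by rw [hxθ]; exact h2) hR
      rwa [hxθ] at this
    have hur : 0 < u ^ r := by positivity
    set S := ∑ m ∈ O, (hit y m L : ℝ) ^ r with hS
    have hsum0 : 0 ≤ S := sum_nonneg fun m _ => by positivity
    have hae : 0 ≤ a - 8 * ε := by linarith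
    constructor
    · -- lower bound
      have hl1 : ((O.card : ℝ) - E1.card) * ((a - 8 * ε) * u) ^ r ≤ S := by
        have g1 : ∑ m ∈ O \ E1, ((a - 8 * ε) * u) ^ r ≤ ∑ m ∈ O \ E1, (hit y m L : ℝ) ^ r := by
          apply sum_le_sum
          intro m hm
          rw [Finset.mem_sdiff] at hm
          apply pow_le_pow_left₀ (by positivity)
          have := (abs_le.1 (hreg m hm.1 hm.2)).1
          linarith
        have g2 : ∑ m ∈ O \ E1, (hit y m L : ℝ) ^ r ≤ S :=
          sum_le_sum_of_subset_of_nonneg sdiff_subset (fun m _ _ => by positivity)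
        rw [sum_const, nsmul_eq_mul] at g1
        have g3 : ((O \ E1).card : ℝ) = O.card - E1.card := by
          rw [card_sdiff_of_subset (filter_subset _ _), Nat.cast_sub (card_le_card (filter_subset _ _))]
        rw [g3] at g1
        exact g1.trans g2
      simp only [hf]
      rw [le_div_iff₀ hur]
      have hp : 0 ≤ (a - 8 * ε) ^ r * u ^ r := by positivity
      have g4 : (2 * (O.card : ℝ) / x - 2 / u) * ((a - 8 * ε) ^ r * u ^ r) ≤
          (2 / x * ((O.card : ℝ) - E1.card)) * ((a - 8 * ε) ^ r * u ^ r) := by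
        apply mul_le_mul_of_nonneg_right _ hp
        have g5 : 2 / x * (E1.card : ℝ) ≤ 2 / x * (x / u) := mul_le_mul_of_nonneg_left h1 (by positivity)
        have g6 : 2 / x * (x / u) = 2 / u := by field_simp
        have g7 : 2 / x * ((O.card : ℝ) - E1.card) = 2 * (O.card : ℝ) / x - 2 / x * E1.card := by ring
        rw [g7]
        linarith
      calc (2 * (O.card : ℝ) / x - 2 / u) * (a - 8 * ε) ^ r * u ^ r
          = (2 * (O.card : ℝ) / x - 2 / u) * ((a - 8 * ε) ^ r * u ^ r) := by ring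
        _ ≤ (2 / x * ((O.card : ℝ) - E1.card)) * ((a - 8 * ε) ^ r * u ^ r) := g4
        _ = 2 / x * (((O.card : ℝ) - E1.card) * ((a - 8 * ε) * u) ^ r) := by rw [mul_pow]; ring
        _ ≤ 2 / x * S := mul_le_mul_of_nonneg_left hl1 (by positivity)
    · -- upper bound
      have hpt : ∀ m ∈ O, (hit y m L : ℝ) ^ r ≤ ((a + 8 * ε) * u) ^ r +
          ((if m ∈ E1 then (B * u) ^ r else 0) + (if m ∈ E2 then (L : ℝ) ^ r else 0)) := by
        intro m hm
        obtain ⟨k1, k2, k3⟩ := hOm m hm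
        by_cases g1 : m ∈ E1
        · by_cases g2 : m ∈ E2
          · rw [if_pos g1, if_pos g2]
            have g3 : (hit y m L : ℝ) ^ r ≤ (L : ℝ) ^ r := by
              apply pow_le_pow_left₀ (Nat.cast_nonneg _)
              exact_mod_cast hit_le_L y m L
            have g4 : 0 ≤ ((a + 8 * ε) * u) ^ r := by positivity
            have g5 : 0 ≤ (B * u) ^ r := by positivity
            linarith
          · rw [if_pos g1, if_neg g2]
            have g3 : ¬ timeBad B y m := fun hcon => g2 (mem_filter.2 ⟨hm, hcon⟩)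
            have g4 := hit_le_of_time (L := L) hB k3 g3
            have g5 : (hit y m L : ℝ) ≤ B * u := by
              refine g4.trans (mul_le_mul_of_nonneg_left ?_ hB)
              exact Real.log_le_log (by exact_mod_cast k1) k2
            have g6 : (hit y m L : ℝ) ^ r ≤ (B * u) ^ r := pow_le_pow_left₀ (Nat.cast_nonneg _) g5 r
            have g7 : 0 ≤ ((a + 8 * ε) * u) ^ r := by positivity
            linarith
        · rw [if_neg g1]
          have g3 := (abs_le.1 (hreg m hm g1)).2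
          have g4 : (hit y m L : ℝ) ^ r ≤ ((a + 8 * ε) * u) ^ r :=
            pow_le_pow_left₀ (Nat.cast_nonneg _) (by linarith) r
          have g5 : 0 ≤ (if m ∈ E2 then (L : ℝ) ^ r else 0) := by split_ifs <;> positivity
          linarith
      have hSle : S ≤ O.card * ((a + 8 * ε) * u) ^ r + (E1.card * (B * u) ^ r + E2.card * (L : ℝ) ^ r) := by
        refine (sum_le_sum hpt).trans ?_
        rw [sum_add_distrib, sum_add_distrib, sum_const, nsmul_eq_mul, ← sum_filter, ← sum_filter,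
          sum_const, sum_const, nsmul_eq_mul, nsmul_eq_mul]
        have e1 : O.filter (fun m => m ∈ E1) = E1 := by
          ext m; rw [mem_filter, hE1, mem_filter]; tauto
        have e2 : O.filter (fun m => m ∈ E2) = E2 := by
          ext m; rw [mem_filter, hE2, mem_filter]; tauto
        rw [e1, e2]
      simp only [hf]
      rw [div_le_iff₀ hur]
      have q1 : 2 / x * (E1.card * (B * u) ^ r) ≤ 2 * B ^ r * (1 / u) * u ^ r := by
        calc 2 / x * (E1.card * (B * u) ^ r) ≤ 2 / x * (x / u * (B * u) ^ r) := by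
              apply mul_le_mul_of_nonneg_left _ (by positivity)
              exact mul_le_mul_of_nonneg_right h1 (by positivity)
          _ = _ := by rw [mul_pow]; field_simp
      have q2 : 2 / x * (E2.card * (L : ℝ) ^ r) ≤ 2 * C * (u ^ 3 * x ^ (κ * r - c * θ)) * u ^ r := by
        have q3 : (L : ℝ) ^ r ≤ x ^ (κ * r) := by
          calc (L : ℝ) ^ r ≤ (x ^ κ) ^ r := pow_le_pow_left₀ (Nat.cast_nonneg _) hLx r
            _ = x ^ (κ * r) := by rw [← Real.rpow_natCast, ← Real.rpow_mul hx0.le]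
        have q4 : y ^ c = x ^ (c * θ) := by rw [hy, ← Real.rpow_mul hx0.le, mul_comm]
        have q5 : 1 ≤ u ^ r := one_le_pow₀ h4
        calc 2 / x * (E2.card * (L : ℝ) ^ r) ≤ 2 / x * ((C * u ^ 3 * (x / y ^ c)) * x ^ (κ * r)) := by
              apply mul_le_mul_of_nonneg_left _ (by positivity)
              exact mul_le_mul hE2c q3 (by positivity) (by positivity)
          _ = 2 * C * (u ^ 3 * x ^ (κ * r - c * θ)) := by
              rw [q4, Real.rpow_sub hx0]; field_simp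
          _ ≤ 2 * C * (u ^ 3 * x ^ (κ * r - c * θ)) * u ^ r := le_mul_of_one_le_right (by positivity) q5
      calc 2 / x * S ≤ 2 / x * (O.card * ((a + 8 * ε) * u) ^ r + (E1.card * (B * u) ^ r + E2.card * (L : ℝ) ^ r)) :=
            mul_le_mul_of_nonneg_left hSle (by positivity)
        _ = 2 * (O.card : ℝ) / x * (a + 8 * ε) ^ r * u ^ r + 2 / x * (E1.card * (B * u) ^ r) +
            2 / x * (E2.card * (L : ℝ) ^ r) := by rw [mul_pow]; ring
        _ ≤ _ := by
            have : (2 * (O.card : ℝ) / x * (a + 8 * ε) ^ r + 2 * B ^ r * (1 / u) +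
                2 * C * (u ^ 3 * x ^ (κ * r - c * θ))) * u ^ r = 2 * (O.card : ℝ) / x * (a + 8 * ε) ^ r * u ^ r +
                2 * B ^ r * (1 / u) * u ^ r + 2 * C * (u ^ 3 * x ^ (κ * r - c * θ)) * u ^ r := by ring
            rw [this]
            linarith
  -- limits
  have hlog : Tendsto (fun x : ℝ => 1 / Real.log x) atTop (𝓝 0) := by
    have h := tendsto_inv_atTop_zero.comp Real.tendsto_log_atTop
    refine h.congr fun x => ?_
    simp [Function.comp]
  have hpow : Tendsto (fun x : ℝ => Real.log x ^ 3 * x ^ (κ * r - c * θ)) atTop (𝓝 0) := by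
    set s := c * θ - κ * r with hs
    have hs0 : 0 < s := by linarith
    have h := isLittleO_log_rpow_rpow_atTop (3 : ℝ) hs0
    rw [Asymptotics.isLittleO_iff_tendsto' (by
      filter_upwards [eventually_gt_atTop 0] with x hx hcon
      exact absurd hcon (Real.rpow_pos_of_pos hx _).ne')] at h
    refine h.congr' ?_
    filter_upwards [eventually_gt_atTop 0] with x hx
    have e : κ * r - c * θ = -s := by rw [hs]; ring
    rw [e, Real.rpow_neg hx.le, div_eq_mul_inv]
    congr 1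
    exact_mod_cast Real.rpow_natCast (Real.log x) 3
  have hup : ∀ ε : ℝ, Tendsto (fun x : ℝ => (2 * ((Od x).card : ℝ) / x) * (a + 8 * ε) ^ r +
      2 * B ^ r * (1 / Real.log x) + 2 * C * (Real.log x ^ 3 * x ^ (κ * r - c * θ))) atTop
      (𝓝 ((a + 8 * ε) ^ r)) := by
    intro ε
    have h := ((tendsto_Od.mul_const ((a + 8 * ε) ^ r)).add (hlog.const_mul (2 * B ^ r))).add
      (hpow.const_mul (2 * C))
    simpa using h
  have hlo : ∀ ε : ℝ, Tendsto (fun x : ℝ => (2 * ((Od x).card : ℝ) / x - 2 / Real.log x) * (a - 8 * ε) ^ r)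
      atTop (𝓝 ((a - 8 * ε) ^ r)) := by
    intro ε
    have h2 : Tendsto (fun x : ℝ => 2 / Real.log x) atTop (𝓝 0) := by
      have := hlog.const_mul 2
      simpa [div_eq_mul_inv] using this
    have h := (tendsto_Od.sub h2).mul_const ((a - 8 * ε) ^ r)
    rw [sub_zero, one_mul] at h
    exact h
  -- small `ε`
  have hcont1 : Tendsto (fun ε : ℝ => (a + 8 * ε) ^ r) (𝓝[>] 0) (𝓝 (a ^ r)) := by
    have h : Tendsto (fun ε : ℝ => (a + 8 * ε) ^ r) (𝓝 0) (𝓝 ((a + 8 * 0) ^ r)) :=
      Continuous.tendsto (by fun_prop) 0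
    rw [mul_zero, add_zero] at h
    exact h.mono_left nhdsWithin_le_nhds
  have hcont2 : Tendsto (fun ε : ℝ => (a - 8 * ε) ^ r) (𝓝[>] 0) (𝓝 (a ^ r)) := by
    have h : Tendsto (fun ε : ℝ => (a - 8 * ε) ^ r) (𝓝 0) (𝓝 ((a - 8 * 0) ^ r)) :=
      Continuous.tendsto (by fun_prop) 0
    rw [mul_zero, sub_zero] at h
    exact h.mono_left nhdsWithin_le_nhds
  have hsmall : ∀ᶠ ε : ℝ in 𝓝[>] 0, 0 < ε ∧ ε ≤ 1 ∧ ε < 1 - θ ∧ 8 * ε ≤ a := by
    have hm : (0 : ℝ) < min (min 1 ((1 - θ) / 2)) (a / 8) :=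
      lt_min (lt_min one_pos (by linarith)) (by positivity)
    filter_upwards [Ioo_mem_nhdsGT hm] with ε hε
    have k1 := hε.2.trans_le (min_le_left _ _)
    have k2 := hε.2.trans_le (min_le_right _ _)
    have k3 := k1.trans_le (min_le_left _ _)
    have k4 := k1.trans_le (min_le_right _ _)
    refine ⟨hε.1, k3.le, by linarith, by linarith⟩
  rw [tendsto_order]
  constructor
  · intro b hb
    obtain ⟨ε, h1, h2, h3, h4, h5⟩ := ((hcont2.eventually (lt_mem_nhds hb)).and hsmall).exists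
    filter_upwards [key ε h2 h3 h4 h5, (hlo ε).eventually (lt_mem_nhds h1)] with x hx1 hx2
    exact lt_of_lt_of_le hx2 hx1.1
  · intro b hb
    obtain ⟨ε, h1, h2, h3, h4, h5⟩ := ((hcont1.eventually (gt_mem_nhds hb)).and hsmall).exists
    filter_upwards [key ε h2 h3 h4 h5, (hup ε).eventually (gt_mem_nhds h1)] with x hx1 hx2
    exact lt_of_le_of_lt hx1.2 hx2

end Pool.Agent.TH930.LT
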