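import Pool.Agent.TH930.LT.Chain

set_option autoImplicit false

/-! Counting. -/

namespace Pool.Agent.TH930.LT

open Finset Pool.Agent.Helper894.Collatz Pool.Agent.H377R2 Pool.Agent.H319R2.Lln

theorem card_family (k l M : ℕ) (E : ℕ → Finset ℕ) (hE : ∀ i, ∀ y ∈ E i, 2 ^ i ≤ 2 * y)
    (hM : 2 * M ≤ 2 ^ l) (S : Finset ℕ)
    (hS : ∀ x ∈ S, 0 < x ∧ x < 2 ^ k ∧ ∃ i m, l < i ∧ i ≤ k ∧ m ≤ M ∧ FP i m x ∧ T^[m] x ∈ E i) :
    (S.card : ℝ) ≤ ∑ i ∈ Ioc l k, ((E i).card : ℝ) * ((M + 1) * ((M + 2) * 2 ^ (k - i + 2))) := by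
  classical
  have hsub : S ⊆ (Ioc l k).biUnion (fun i =>
      (range (2 ^ k)).filter (fun x => 0 < x ∧ ∃ m ≤ M, FP i m x ∧ T^[m] x ∈ E i)) := by
    intro x hx
    obtain ⟨h1, h2, i, m, h3, h4, h5, h6, h7⟩ := hS x hx
    rw [mem_biUnion]
    exact ⟨i, mem_Ioc.2 ⟨h3, h4⟩, mem_filter.2 ⟨mem_range.2 h2, h1, m, h5, h6, h7⟩⟩
  have h1 := (card_le_card hsub).trans card_biUnion_le
  have h2 : (S.card : ℝ) ≤ ∑ i ∈ Ioc l k, ((((range (2 ^ k)).filter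
      (fun x => 0 < x ∧ ∃ m ≤ M, FP i m x ∧ T^[m] x ∈ E i)).card : ℕ) : ℝ) := by exact_mod_cast h1
  refine h2.trans (sum_le_sum fun i hi => ?_)
  rw [mem_Ioc] at hi
  have h3 := card_passage k i M hi.2 (hM.trans (Nat.pow_le_pow_right (by norm_num) hi.1.le)) (E i) (hE i)
  exact_mod_cast h3

/-- the sum over the levels -/
theorem sum_levels {k l M : ℕ} {C c V : ℝ} (hC : 0 ≤ C) (hc : 0 ≤ c) (hV : 0 < V) (f : ℕ → ℝ)
    (hf : ∀ i, l < i → i ≤ k → f i ≤ C * ((2 : ℝ) ^ i) ^ (1 - c) + (i + 3) * (4 ^ i / V)) :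
    ∑ i ∈ Ioc l k, f i * (((M : ℝ) + 1) * ((M + 2) * 2 ^ (k - i + 2))) ≤
      k * (4 * (M + 2) ^ 2) * (C * (2 ^ k * ((2 : ℝ) ^ l) ^ (-c)) + (k + 3) * (4 ^ k / V)) := by
  have hMn : (0 : ℝ) ≤ M := Nat.cast_nonneg M
  have h1 : ∀ i ∈ Ioc l k, f i * (((M : ℝ) + 1) * ((M + 2) * 2 ^ (k - i + 2))) ≤
      (4 * (M + 2) ^ 2) * (C * (2 ^ k * ((2 : ℝ) ^ l) ^ (-c)) + (k + 3) * (4 ^ k / V)) := by
    intro i hi
    rw [mem_Ioc] at hi
    have h2i : (0 : ℝ) < 2 ^ i := by positivity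
    have e1 : (2 : ℝ) ^ (k - i + 2) = 4 * 2 ^ k / 2 ^ i := by
      rw [eq_div_iff h2i.ne', ← pow_add]
      have : k - i + 2 + i = k + 2 := by omega
      rw [this, pow_add]; ring
    have e2 : ((2 : ℝ) ^ i) ^ (1 - c) = 2 ^ i * ((2 : ℝ) ^ i) ^ (-c) := by
      rw [show 1 - c = 1 + -c by ring, Real.rpow_add h2i, Real.rpow_one]
    have e3 : ((2 : ℝ) ^ i) ^ (-c) ≤ ((2 : ℝ) ^ l) ^ (-c) :=
      Real.rpow_le_rpow_of_nonpos (by positivity) (pow_le_pow_right₀ (by norm_num) hi.1.le) (by linarith)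
    have e4 : (4 : ℝ) ^ i = 2 ^ i * 2 ^ i := by rw [← mul_pow]; norm_num
    have e5 : (4 : ℝ) ^ k = 2 ^ k * 2 ^ k := by rw [← mul_pow]; norm_num
    have e6 : (2 : ℝ) ^ i ≤ 2 ^ k := pow_le_pow_right₀ (by norm_num) hi.2
    have hik : (i : ℝ) ≤ k := by exact_mod_cast hi.2
    have h3 : (M + 1 : ℝ) * ((M + 2) * 2 ^ (k - i + 2)) ≤ (4 * (M + 2) ^ 2) * (2 ^ k / 2 ^ i) := by
      rw [e1]
      have : 0 ≤ 2 ^ k / (2 : ℝ) ^ i := by positivity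
      have e : (M + 1 : ℝ) * ((M + 2) * (4 * 2 ^ k / 2 ^ i)) = (4 * ((M + 1) * (M + 2))) * (2 ^ k / 2 ^ i) := by
        ring
      rw [e]
      apply mul_le_mul_of_nonneg_right _ this
      nlinarith
    have hp : 0 ≤ C * ((2 : ℝ) ^ i) ^ (1 - c) + (i + 3) * (4 ^ i / V) := by positivity
    calc f i * (((M : ℝ) + 1) * ((M + 2) * 2 ^ (k - i + 2)))
        ≤ (C * ((2 : ℝ) ^ i) ^ (1 - c) + (i + 3) * (4 ^ i / V)) * ((4 * (M + 2) ^ 2) * (2 ^ k / 2 ^ i)) :=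
          mul_le_mul (hf i hi.1 hi.2) h3 (by positivity) hp
      _ = (4 * (M + 2) ^ 2) * (C * (2 ^ k * ((2 : ℝ) ^ i) ^ (-c)) + (i + 3) * (2 ^ k * 2 ^ i / V)) := by
          rw [e2, e4]; field_simp
      _ ≤ _ := by
          apply mul_le_mul_of_nonneg_left _ (by positivity)
          apply add_le_add
          · apply mul_le_mul_of_nonneg_left _ hC
            exact mul_le_mul_of_nonneg_left e3 (by positivity)
          · apply mul_le_mul (by linarith) _ (by positivity) (by positivity)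
            rw [e5]
            apply div_le_div_of_nonneg_right _ hV.le
            exact mul_le_mul_of_nonneg_left e6 (by positivity)
  refine (sum_le_sum h1).trans ?_
  rw [sum_const, Nat.card_Ioc, nsmul_eq_mul, mul_assoc (k : ℝ)]
  apply mul_le_mul_of_nonneg_right _ (by positivity)
  exact_mod_cast Nat.sub_le _ _

/-- passing to real scales -/
theorem to_real {c B₀ D : ℝ} (hc0 : 0 ≤ c) (hc1 : c ≤ 1) (hB₀ : 0 ≤ B₀) (hD : 0 ≤ D) (I₀ e : ℕ) (he : 1 ≤ e)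
    (bad : ℝ → ℝ → ℕ → Prop)
    (mono : ∀ y y' V : ℝ, ∀ n : ℕ, y ≤ y' → bad y' V n → bad y V n)
    (dy : ∀ k l : ℕ, 1 ≤ k → I₀ ≤ l → B₀ * k ≤ (2 : ℝ) ^ l → ∀ V : ℝ, 0 < V → ∀ S : Finset ℕ,
      (∀ x ∈ S, 0 < x ∧ x < 2 ^ k ∧ (x : ℝ) ≤ V ∧ bad (2 ^ l) V x) →
      (S.card : ℝ) ≤ D * (k : ℝ) ^ e * (2 ^ k * ((2 : ℝ) ^ l) ^ (-c) + 4 ^ k / V)) :
    ∃ C : ℝ, 0 < C ∧ ∀ x y V : ℝ, 2 ≤ x → 1 ≤ y → x ≤ V →
      ({n : ℕ | 1 ≤ n ∧ (n : ℝ) ≤ x ∧ bad y V n}.ncard : ℝ) ≤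
        C * (Real.log x) ^ e * (x / y ^ c + x ^ 2 / V) := by
  classical
  set C : ℝ := 4 * D * 3 ^ e + 2 ^ e * (2 * 2 ^ I₀) + 2 ^ e * (12 * B₀) + 1 with hC
  have hC0 : 0 < C := by positivity
  refine ⟨C, hC0, ?_⟩
  intro x y V hx hy hV
  have hx0 : 0 < x := by linarith
  have hV0 : 0 < V := by linarith
  have hy0 : 0 < y := by linarith
  set L := Real.log x with hL
  have hl2 := Real.log_two_lt_d9
  have hl2' := Real.log_two_gt_d9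
  have hL2 : Real.log 2 ≤ L := Real.log_le_log (by norm_num) hx
  have hL0 : 0 < L := by linarith
  have hL1 : 1 / 2 ≤ L := by linarith
  set S : Finset ℕ := (Icc 1 ⌊x⌋₊).filter (fun n => bad y V n) with hS
  have hset : {n : ℕ | 1 ≤ n ∧ (n : ℝ) ≤ x ∧ bad y V n} = (S : Set ℕ) := by
    ext n
    rw [hS, coe_filter]
    simp only [Set.mem_ofPred_eq, mem_Icc, Nat.le_floor_iff hx0.le]
    tauto
  rw [hset, Set.ncard_coe_finset]
  have hSx : (S.card : ℝ) ≤ x := by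
    have h1 : S.card ≤ ⌊x⌋₊ := by
      refine (card_filter_le _ _).trans ?_
      rw [Nat.card_Icc]; omega
    calc (S.card : ℝ) ≤ (⌊x⌋₊ : ℝ) := by exact_mod_cast h1
      _ ≤ x := Nat.floor_le hx0.le
  have hyc : 0 < y ^ c := Real.rpow_pos_of_pos hy0 _
  have hyc1 : y ^ c ≤ y := by
    calc y ^ c ≤ y ^ (1 : ℝ) := Real.rpow_le_rpow_of_exponent_le hy hc1
      _ = y := Real.rpow_one _
  have hterm0 : 0 ≤ x ^ 2 / V := by positivity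
  have hLe : 1 ≤ 2 ^ e * L ^ e := by
    rw [← mul_pow]
    exact one_le_pow₀ (by linarith)
  -- the trivial case
  have htriv : ∀ A : ℝ, 0 ≤ A → A ≤ C → y ≤ A * L ^ e → (S.card : ℝ) ≤ C * L ^ e * (x / y ^ c + x ^ 2 / V) := by
    intro A hA0 hA1 hyA
    have h1 : x ≤ C * L ^ e * (x / y ^ c) := by
      rw [← mul_div_assoc, le_div_iff₀ hyc]
      have h2 : y ^ c ≤ C * L ^ e := by
        calc y ^ c ≤ y := hyc1
          _ ≤ A * L ^ e := hyA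
          _ ≤ C * L ^ e := mul_le_mul_of_nonneg_right hA1 (by positivity)
      calc x * y ^ c ≤ x * (C * L ^ e) := mul_le_mul_of_nonneg_left h2 hx0.le
        _ = _ := by ring
    have h2 : 0 ≤ C * L ^ e * (x ^ 2 / V) := by positivity
    rw [mul_add]
    linarith
  -- `k`
  obtain ⟨k, hk⟩ : ∃ k, k = Nat.log 2 ⌊x⌋₊ + 1 := ⟨_, rfl⟩
  have hfx : ⌊x⌋₊ ≠ 0 := by
    have : 2 ≤ ⌊x⌋₊ := Nat.le_floor (by exact_mod_cast hx)
    omega
  have hkx : (2 : ℝ) ^ k ≤ 2 * x := by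
    have h1 : 2 ^ (Nat.log 2 ⌊x⌋₊) ≤ ⌊x⌋₊ := Nat.pow_log_le_self 2 hfx
    have h2 : ((2 : ℝ) ^ (Nat.log 2 ⌊x⌋₊)) ≤ ⌊x⌋₊ := by exact_mod_cast h1
    have h3 := Nat.floor_le hx0.le
    rw [hk, pow_succ]; linarith
  have hxk : ∀ n : ℕ, (n : ℝ) ≤ x → n < 2 ^ k := by
    intro n hn
    rw [hk]
    exact lt_of_le_of_lt (Nat.le_floor hn) (Nat.lt_pow_succ_log_self (by norm_num) _)
  have hkL : (k : ℝ) ≤ 3 * L := by
    have h1 : (k : ℝ) * Real.log 2 ≤ Real.log (2 * x) := by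
      rw [← Real.log_pow]
      exact Real.log_le_log (by positivity) hkx
    rw [Real.log_mul (by norm_num) hx0.ne', ← hL] at h1
    nlinarith
  have hk1 : 1 ≤ k := by omega
  -- `l`
  obtain ⟨l, hl⟩ : ∃ l, l = Nat.log 2 ⌊y⌋₊ := ⟨_, rfl⟩
  have hfy : ⌊y⌋₊ ≠ 0 := by
    have : 1 ≤ ⌊y⌋₊ := Nat.le_floor (by exact_mod_cast hy)
    omega
  have hly : (2 : ℝ) ^ l ≤ y := by
    have h1 : 2 ^ l ≤ ⌊y⌋₊ := by rw [hl]; exact Nat.pow_log_le_self 2 hfy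
    have h2 : ((2 : ℝ) ^ l) ≤ ⌊y⌋₊ := by exact_mod_cast h1
    exact h2.trans (Nat.floor_le hy0.le)
  have hly2 : y ≤ 2 * 2 ^ l := by
    have h1 : ⌊y⌋₊ < 2 ^ (l + 1) := by rw [hl]; exact Nat.lt_pow_succ_log_self (by norm_num) _
    have h2 : ((⌊y⌋₊ + 1 : ℕ) : ℝ) ≤ 2 ^ (l + 1) := by exact_mod_cast h1
    have h3 := Nat.lt_floor_add_one y
    push_cast at h2
    rw [pow_succ] at h2
    linarith
  have hDp : 0 ≤ 4 * D * 3 ^ e := by positivity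
  have hIp : 0 ≤ (2 : ℝ) ^ e * (2 * 2 ^ I₀) := by positivity
  have hBp : 0 ≤ 2 ^ e * (12 * B₀) := by positivity
  by_cases hI : I₀ ≤ l
  swap
  · apply htriv (2 ^ e * (2 * 2 ^ I₀)) hIp (by rw [hC]; linarith)
    have h1 : (2 : ℝ) ^ l ≤ 2 ^ I₀ := pow_le_pow_right₀ (by norm_num) (by omega)
    calc y ≤ 1 * (2 * 2 ^ I₀) := by linarith
      _ ≤ (2 ^ e * L ^ e) * (2 * 2 ^ I₀) := mul_le_mul_of_nonneg_right hLe (by positivity)
      _ = _ := by ring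
  by_cases hM : B₀ * k ≤ (2 : ℝ) ^ l
  swap
  · rw [not_le] at hM
    apply htriv (2 ^ e * (12 * B₀)) hBp (by rw [hC]; linarith)
    have h1 : y ≤ 2 * (B₀ * (3 * L)) := by
      have : B₀ * (k : ℝ) ≤ B₀ * (3 * L) := mul_le_mul_of_nonneg_left hkL hB₀
      linarith
    have h2 : L ≤ 2 ^ e * L ^ e := by
      obtain ⟨f, rfl⟩ : ∃ f, e = f + 1 := ⟨e - 1, by omega⟩
      have h3 : 1 ≤ (2 * L) ^ f := one_le_pow₀ (by linarith)
      have h4 : (2 : ℝ) ^ (f + 1) * L ^ (f + 1) = 2 * L * (2 * L) ^ f := by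
        rw [mul_pow, pow_succ, pow_succ]; ring
      rw [h4]
      nlinarith
    calc y ≤ (6 * B₀) * L := by linarith
      _ ≤ (12 * B₀) * (2 ^ e * L ^ e) := mul_le_mul (by linarith) h2 hL0.le (by positivity)
      _ = _ := by ring
  -- the main case
  have hd := dy k l hk1 hI hM V hV0 S (by
    intro n hn
    rw [hS, mem_filter, mem_Icc, Nat.le_floor_iff hx0.le] at hn
    exact ⟨by omega, hxk n hn.1.2, hn.1.2.trans hV, mono _ _ V n hly hn.2⟩)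
  have hrl : ((2 : ℝ) ^ l) ^ (-c) ≤ 2 * (1 / y ^ c) := by
    have h1 : y / 2 ≤ 2 ^ l := by linarith
    have h2 : ((2 : ℝ) ^ l) ^ (-c) ≤ (y / 2) ^ (-c) :=
      Real.rpow_le_rpow_of_nonpos (by positivity) h1 (by linarith)
    refine h2.trans ?_
    rw [Real.rpow_neg (by positivity), Real.div_rpow hy0.le (by norm_num), inv_div, div_eq_mul_one_div]
    apply mul_le_mul_of_nonneg_right _ (by positivity)
    calc (2 : ℝ) ^ c ≤ 2 ^ (1 : ℝ) := Real.rpow_le_rpow_of_exponent_le (by norm_num) hc1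
      _ = 2 := Real.rpow_one _
  have h4k : (4 : ℝ) ^ k ≤ 4 * x ^ 2 := by
    have : (4 : ℝ) ^ k = (2 ^ k) ^ 2 := by rw [← pow_mul, mul_comm, pow_mul]; norm_num
    rw [this]
    calc ((2 : ℝ) ^ k) ^ 2 ≤ (2 * x) ^ 2 := pow_le_pow_left₀ (by positivity) hkx 2
      _ = _ := by ring
  have hbr : (2 : ℝ) ^ k * ((2 : ℝ) ^ l) ^ (-c) + 4 ^ k / V ≤ 4 * (x / y ^ c + x ^ 2 / V) := by
    have h1 : (2 : ℝ) ^ k * ((2 : ℝ) ^ l) ^ (-c) ≤ (2 * x) * (2 * (1 / y ^ c)) :=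
      mul_le_mul hkx hrl (by positivity) (by positivity)
    have h2 : (4 : ℝ) ^ k / V ≤ 4 * x ^ 2 / V := div_le_div_of_nonneg_right h4k hV0.le
    have h3 : 4 * x ^ 2 / V = 4 * (x ^ 2 / V) := by ring
    have h4 : (2 * x) * (2 * (1 / y ^ c)) = 4 * (x / y ^ c) := by ring
    rw [h3] at h2
    rw [h4] at h1
    linarith
  have hke : (k : ℝ) ^ e ≤ 3 ^ e * L ^ e := by
    rw [← mul_pow]
    exact pow_le_pow_left₀ (Nat.cast_nonneg _) hkL e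
  calc (S.card : ℝ) ≤ D * (k : ℝ) ^ e * (2 ^ k * ((2 : ℝ) ^ l) ^ (-c) + 4 ^ k / V) := hd
    _ ≤ (D * (3 ^ e * L ^ e)) * (4 * (x / y ^ c + x ^ 2 / V)) := by
        apply mul_le_mul (mul_le_mul_of_nonneg_left hke hD) hbr (by positivity) (by positivity)
    _ = (4 * D * 3 ^ e) * L ^ e * (x / y ^ c + x ^ 2 / V) := by ring
    _ ≤ C * L ^ e * (x / y ^ c + x ^ 2 / V) := by
        apply mul_le_mul_of_nonneg_right _ (by positivity)
        apply mul_le_mul_of_nonneg_right _ (by positivity)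
        rw [hC]; linarith

end Pool.Agent.TH930.LT
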