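import Pool.Agent.TH930.LT.Cnt

set_option autoImplicit false

/-! The laws of the descent in logarithmic time and of the excursions. -/

namespace Pool.Agent.TH930.LT

open Finset Pool.Agent.Helper894.Collatz Pool.Agent.H377R2 Pool.Agent.H319R2.Lln

/-- `n` does not reach a value `T^m n ≤ y` with `m ≤ B log (n / T^m n)` -/
def timeBad (B y : ℝ) (n : ℕ) : Prop :=
  ¬ ∃ m, ((T^[m] n : ℕ) : ℝ) ≤ y ∧ (m : ℝ) ≤ B * (Real.log n - Real.log (T^[m] n : ℕ))

/-- `n` does not reach a value `≤ y` within `B log n` steps staying `≤ V` -/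
def excBad (B y V : ℝ) (n : ℕ) : Prop :=
  ¬ ∃ m, ((T^[m] n : ℕ) : ℝ) ≤ y ∧ (m : ℝ) ≤ B * Real.log n ∧ ∀ j ≤ m, ((T^[j] n : ℕ) : ℝ) ≤ V

section
variable {τ p B c : ℝ}

/-- the data for a level -/
lemma exists_I0 {a : ℝ} (ha : 0 < a) (hBa : 1 < B * a) : ∃ I₀ : ℕ, ∀ l : ℕ, I₀ ≤ l →
    2 * Real.log 2 ≤ a * l ∧ B * Real.log 2 ≤ (B * a - 1) * l := by
  obtain ⟨I₀, hI⟩ := exists_nat_ge (max (2 * Real.log 2 / a) (B * Real.log 2 / (B * a - 1)))
  refine ⟨I₀, fun l hl => ?_⟩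
  have hlr : (I₀ : ℝ) ≤ l := by exact_mod_cast hl
  have h1 : 2 * Real.log 2 / a ≤ l := le_trans (le_trans (le_max_left _ _) hI) hlr
  have h2 : B * Real.log 2 / (B * a - 1) ≤ l := le_trans (le_trans (le_max_right _ _) hI) hlr
  rw [div_le_iff₀ ha] at h1
  rw [div_le_iff₀ (by linarith)] at h2
  constructor <;> linarith

lemma exists_M (hB : 0 < B) {k l : ℕ} (hk : 1 ≤ k) (hkl : (2 * (B + 1)) * k ≤ (2 : ℝ) ^ l) :
    ∃ M : ℕ, B * (k * Real.log 2) ≤ M ∧ 2 * M ≤ 2 ^ l ∧ (M : ℝ) + 2 ≤ (B + 3) * k := by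
  have hl2 := Real.log_two_lt_d9
  have hl2' := Real.log_two_gt_d9
  have hkR : (1 : ℝ) ≤ k := by exact_mod_cast hk
  refine ⟨⌈B * (k * Real.log 2)⌉₊, Nat.le_ceil _, ?_, ?_⟩
  · have h1 : (⌈B * (k * Real.log 2)⌉₊ : ℝ) < B * (k * Real.log 2) + 1 := Nat.ceil_lt_add_one (by positivity)
    have h2 : B * (k * Real.log 2) ≤ B * k := by
      apply mul_le_mul_of_nonneg_left _ hB.le
      nlinarith
    have h3 : ((2 * ⌈B * (k * Real.log 2)⌉₊ : ℕ) : ℝ) ≤ ((2 ^ l : ℕ) : ℝ) := by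
      push_cast
      nlinarith
    exact_mod_cast h3
  · have h1 : (⌈B * (k * Real.log 2)⌉₊ : ℝ) < B * (k * Real.log 2) + 1 := Nat.ceil_lt_add_one (by positivity)
    have h2 : B * (k * Real.log 2) ≤ B * k := by
      apply mul_le_mul_of_nonneg_left _ hB.le
      nlinarith
    nlinarith

lemma Qs_lower {a : ℝ} (i : ℕ) : ∀ y ∈ Qs τ a i, 2 ^ i ≤ 2 * y := fun _ hy => (mem_Qs.1 hy).2.1

/-- the law of the descent in logarithmic time -/
theorem time_law (hτ0 : 0 < τ) (hτ : τ ≤ (1 / 4) / 1000000) (hp0 : 1 / 2 ≤ p) (hp1 : p ≤ 7 / 10)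
    (hB : 0 < B) (hBa : 1 < B * (Real.log 2 - p * Real.log 3)) (hc0 : 0 ≤ c) (hc1 : c ≤ 1) (hc : c ≤ cs τ p) :
    ∃ C : ℝ, 0 < C ∧ ∀ x y : ℝ, 2 ≤ x → 1 ≤ y →
      ({n : ℕ | 1 ≤ n ∧ (n : ℝ) ≤ x ∧ timeBad B y n}.ncard : ℝ) ≤ C * (Real.log x) ^ 3 * (x / y ^ c) := by
  classical
  set a : ℝ := Real.log 2 - p * Real.log 3 with ha
  have ha0 : 0 < a := by
    by_contra hcon
    rw [not_lt] at hcon
    nlinarith
  obtain ⟨C₁, hC₁, hQ⟩ := card_Qs hτ0 hτ hp0 hp1
  obtain ⟨I₀, hI₀⟩ := exists_I0 ha0 hBa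
  obtain ⟨C, hC, h⟩ := to_real (c := c) (B₀ := 2 * (B + 1)) (D := 4 * (B + 3) ^ 2 * (C₁ + 1)) hc0 hc1
    (by positivity) (by positivity) I₀ 3 (by norm_num) (fun y _ n => timeBad B y n)
    (fun y y' _ n hyy hb ⟨m, h1, h2⟩ => hb ⟨m, h1.trans hyy, h2⟩) (by
      intro k l hk hIl hkl V hV S hS
      obtain ⟨M, hM1, hM2, hM3⟩ := exists_M hB hk hkl
      obtain ⟨hl1, hl2⟩ := hI₀ l hIl
      have h1 := card_family k l M (Qs τ a) Qs_lower hM2 S (by
        intro x hx
        obtain ⟨h1, h2, h3, h4⟩ := hS x hx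
        refine ⟨h1, h2, ?_⟩
        by_contra hcon
        push Not at hcon
        apply h4
        obtain ⟨m, g1, g2⟩ := time_start hτ0.le ha0 h1 h2 hl1 hB hl2 hBa.le hM1
          (fun i m k1 k2 k3 k4 => hcon i m k1 k2 k3 k4)
        refine ⟨m, ?_, g2⟩
        exact_mod_cast g1.le)
      have hkR : (1 : ℝ) ≤ k := by exact_mod_cast hk
      have hk3 : (0 : ℝ) < k + 3 := by linarith
      have h2 := sum_levels (k := k) (l := l) (M := M) (C := C₁) (c := c) (V := (k + 3) * V) hC₁.le hc0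
        (by positivity) (fun i => ((Qs τ a i).card : ℝ)) (by
          intro i hi _
          have h3 := hQ c hc i (by omega)
          have h4 : 0 ≤ ((i : ℝ) + 3) * (4 ^ i / ((k + 3) * V)) := by positivity
          linarith)
      have e : ((k : ℝ) + 3) * (4 ^ k / ((k + 3) * V)) = 4 ^ k / V := by field_simp
      rw [e] at h2
      refine (h1.trans h2).trans ?_
      set X : ℝ := 2 ^ k * ((2 : ℝ) ^ l) ^ (-c) with hX
      set Y : ℝ := 4 ^ k / V with hY
      have hX0 : 0 ≤ X := by positivity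
      have hY0 : 0 ≤ Y := by positivity
      calc (k : ℝ) * (4 * (M + 2) ^ 2) * (C₁ * X + Y)
          ≤ k * (4 * ((B + 3) * k) ^ 2) * ((C₁ + 1) * (X + Y)) := by
            apply mul_le_mul _ _ (by positivity) (by positivity)
            · apply mul_le_mul_of_nonneg_left _ (by positivity)
              apply mul_le_mul_of_nonneg_left _ (by norm_num)
              exact pow_le_pow_left₀ (by positivity) hM3 2
            · nlinarith
        _ = 4 * (B + 3) ^ 2 * (C₁ + 1) * (k : ℝ) ^ 3 * (X + Y) := by ring)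
  refine ⟨2 * C, by positivity, ?_⟩
  intro x y hx hy
  have hx0 : 0 < x := by linarith
  have hyc1 : 1 ≤ y ^ c := Real.one_le_rpow hy hc0
  have hV : x ≤ x ^ 2 * y ^ c := by nlinarith
  have h1 := h x y (x ^ 2 * y ^ c) hx hy hV
  refine h1.trans ?_
  have e : x ^ 2 / (x ^ 2 * y ^ c) = 1 / y ^ c := by field_simp
  rw [e]
  have hL : 0 ≤ Real.log x := Real.log_nonneg (by linarith)
  have h2 : 1 / y ^ c ≤ x / y ^ c := div_le_div_of_nonneg_right (by linarith) (by positivity)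
  calc C * Real.log x ^ 3 * (x / y ^ c + 1 / y ^ c) ≤ C * Real.log x ^ 3 * (x / y ^ c + x / y ^ c) := by
        apply mul_le_mul_of_nonneg_left _ (by positivity)
        linarith
    _ = _ := by ring

/-- the law of the excursions, with the time -/
theorem exc_law (hτ0 : 0 < τ) (hτ : τ ≤ (1 / 4) / 1000000) (hp0 : 1 / 2 ≤ p) (hp1 : p ≤ 7 / 10)
    (hB : 0 < B) (hBa : 1 < B * (Real.log 2 - p * Real.log 3)) (hc0 : 0 ≤ c) (hc1 : c ≤ 3 / 50) (hc : c ≤ cs τ p) :
    ∃ C : ℝ, 0 < C ∧ ∀ x y V : ℝ, 2 ≤ x → 1 ≤ y → x ≤ V →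
      ({n : ℕ | 1 ≤ n ∧ (n : ℝ) ≤ x ∧ excBad B y V n}.ncard : ℝ) ≤
        C * (Real.log x) ^ 4 * (x / y ^ c + x ^ 2 / V) := by
  classical
  set a : ℝ := Real.log 2 - p * Real.log 3 with ha
  have ha0 : 0 < a := by
    by_contra hcon
    rw [not_lt] at hcon
    nlinarith
  obtain ⟨C₁, hC₁, hQ⟩ := card_Qs hτ0 hτ hp0 hp1
  obtain ⟨I₀, hI₀⟩ := exists_I0 ha0 hBa
  refine to_real (c := c) (B₀ := 2 * (B + 1)) (D := 4 * (B + 3) ^ 2 * (C₁ + 5)) hc0 (by linarith)
    (by positivity) (by positivity) I₀ 4 (by norm_num) (fun y V n => excBad B y V n)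
    (fun y y' V n hyy hb ⟨m, h1, h2⟩ => hb ⟨m, h1.trans hyy, h2⟩) ?_
  intro k l hk hIl hkl V hV S hS
  obtain ⟨M, hM1, hM2, hM3⟩ := exists_M hB hk hkl
  obtain ⟨hl1, hl2⟩ := hI₀ l hIl
  have h1 := card_family k l M (fun i => Qs τ a i ∪ (Big V i ∪ Wd τ V i)) (by
      intro i y hy
      rw [mem_union, mem_union] at hy
      rcases hy with hy | hy | hy
      · exact (mem_Qs.1 hy).2.1
      · exact (mem_Big.1 hy).2.1
      · have := (mem_Wd.1 hy).1
        rw [stuck, mem_filter] at this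
        exact this.2.1) hM2 S (by
    intro x hx
    obtain ⟨h1, h2, h3, h4⟩ := hS x hx
    refine ⟨h1, h2, ?_⟩
    by_contra hcon
    push Not at hcon
    have hcon' : ∀ i m, l < i → i ≤ k → m ≤ M → FP i m x →
        T^[m] x ∉ Qs τ a i ∧ T^[m] x ∉ Big V i ∧ T^[m] x ∉ Wd τ V i := by
      intro i m k1 k2 k3 k4
      have h5 := hcon i m k1 k2 k3 k4
      rw [mem_union, mem_union, not_or, not_or] at h5
      exact h5
    apply h4
    obtain ⟨m, g1, g2⟩ := time_start hτ0.le ha0 h1 h2 hl1 hB hl2 hBa.le hM1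
      (fun i m k1 k2 k3 k4 => (hcon' i m k1 k2 k3 k4).1)
    -- the first passage
    have hex : ∃ m, T^[m] x < 2 ^ l := ⟨m, g1⟩
    set mF := Nat.find hex with hmF
    have hF1 : T^[mF] x < 2 ^ l := Nat.find_spec hex
    have hF2 : mF ≤ m := Nat.find_min' hex g1
    have hF3 : ∀ r < mF, 2 ^ l ≤ T^[r] x := fun r hr => not_lt.1 (Nat.find_min hex hr)
    have hlw : 0 ≤ Real.log ((T^[m] x : ℕ) : ℝ) := Real.log_natCast_nonneg _
    have hmB : (mF : ℝ) ≤ B * Real.log x := by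
      have h5 : (mF : ℝ) ≤ m := by exact_mod_cast hF2
      refine h5.trans (g2.trans ?_)
      exact mul_le_mul_of_nonneg_left (by linarith) hB.le
    have hmM : mF ≤ M := by
      have h5 : (mF : ℝ) ≤ M := by
        refine hmB.trans (le_trans ?_ hM1)
        apply mul_le_mul_of_nonneg_left _ hB.le
        rw [← Real.log_pow]
        exact Real.log_le_log (by exact_mod_cast h1) (by exact_mod_cast h2.le)
      exact_mod_cast h5
    refine ⟨mF, by exact_mod_cast hF1.le, hmB, ?_⟩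
    rcases Nat.lt_or_ge k l with hkl' | hkl'
    · have h0 : mF = 0 := by
        rcases Nat.eq_zero_or_pos mF with h5 | h5
        · exact h5
        · have h6 := hF3 0 h5
          simp only [Function.iterate_zero, id] at h6
          have h7 : 2 ^ k ≤ 2 ^ l := Nat.pow_le_pow_right (by norm_num) hkl'.le
          omega
      intro j hj
      have : j = 0 := by omega
      subst this
      simpa using h3
    · obtain ⟨m2, k1, k2, k3⟩ := exc_chain hτ0.le ha0 h1 h2 h3 hl1 hF1 hmM hcon' (k - l) (by omega)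
      have e : k - (k - l) = l := by omega
      rw [e] at k2
      have h5 : mF ≤ m2 := Nat.find_min' hex k2.2
      intro j hj
      exact k3 j (hj.trans h5))
  have hkR : (1 : ℝ) ≤ k := by exact_mod_cast hk
  have h2 := sum_levels (k := k) (l := l) (M := M) (C := C₁ + 1) (c := c) (V := V) (by linarith) hc0
    hV (fun i => (((Qs τ a i ∪ (Big V i ∪ Wd τ V i)).card : ℕ) : ℝ)) (by
      intro i hi _
      have h3 := hQ c hc i (by omega)
      have h4 := card_Big V hV i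
      have h5 := card_Wd hτ0 hτ hV i
      have h6 : ((2 : ℝ) ^ i) ^ ((47 : ℝ) / 50) ≤ ((2 : ℝ) ^ i) ^ (1 - c) :=
        Real.rpow_le_rpow_of_exponent_le (one_le_pow₀ (by norm_num)) (by linarith)
      have h7 : (((Qs τ a i ∪ (Big V i ∪ Wd τ V i)).card : ℕ) : ℝ) ≤
          (Qs τ a i).card + ((Big V i).card + (Wd τ V i).card) := by
        have h8 := (card_union_le (Qs τ a i) (Big V i ∪ Wd τ V i)).trans
          (Nat.add_le_add_left (card_union_le (Big V i) (Wd τ V i)) _)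
        exact_mod_cast h8
      have e : ((i : ℝ) + 1) * 4 ^ i / V = (i + 1) * (4 ^ i / V) := by ring
      rw [e] at h4
      linarith)
  refine (h1.trans h2).trans ?_
  set X : ℝ := 2 ^ k * ((2 : ℝ) ^ l) ^ (-c) with hX
  set Y : ℝ := 4 ^ k / V with hY
  have hX0 : 0 ≤ X := by positivity
  have hY0 : 0 ≤ Y := by positivity
  calc (k : ℝ) * (4 * (M + 2) ^ 2) * ((C₁ + 1) * X + (k + 3) * Y)
      ≤ k * (4 * ((B + 3) * k) ^ 2) * ((C₁ + 5) * k * (X + Y)) := by
        apply mul_le_mul _ _ (by positivity) (by positivity)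
        · apply mul_le_mul_of_nonneg_left _ (by positivity)
          apply mul_le_mul_of_nonneg_left _ (by norm_num)
          exact pow_le_pow_left₀ (by positivity) hM3 2
        · have h5 : (C₁ + 1) * X ≤ (C₁ + 5) * k * X := by
            apply mul_le_mul_of_nonneg_right _ hX0
            nlinarith
          have h6 : ((k : ℝ) + 3) * Y ≤ (C₁ + 5) * k * Y := by
            apply mul_le_mul_of_nonneg_right _ hY0
            nlinarith
          linarith
    _ = 4 * (B + 3) ^ 2 * (C₁ + 5) * (k : ℝ) ^ 4 * (X + Y) := by ring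

end

end Pool.Agent.TH930.LT
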