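import Pool.Agent.TH930.LT.Param

set_option autoImplicit false

/-! The map on the odd integers and the accelerated map. -/

namespace Pool.Agent.TH930.LT

open Finset Pool.Agent.Helper894.Collatz Pool.Agent.H377R2

/-- `C(m) = (3m+1)/2^e`, `2^e` the largest power of `2` dividing `3m+1` -/
def Cm (m : ℕ) : ℕ := (3 * m + 1) / 2 ^ padicValNat 2 (3 * m + 1)

lemma T_two_mul (z : ℕ) : T (2 * z) = z := by
  unfold T
  rw [if_pos (by omega)]
  omega

/-- for odd `m`: `T m = 2^f C(m)` and `C(m)` is odd -/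
lemma T_odd_form {m : ℕ} (hm : m % 2 = 1) : ∃ f, T m = 2 ^ f * Cm m ∧ Cm m % 2 = 1 := by
  have hne : 3 * m + 1 ≠ 0 := by omega
  have h2 : 2 ∣ 3 * m + 1 := by omega
  have hv : 1 ≤ padicValNat 2 (3 * m + 1) := one_le_padicValNat_of_dvd hne h2
  have hdvd : 2 ^ padicValNat 2 (3 * m + 1) ∣ 3 * m + 1 := pow_padicValNat_dvd
  have hC : 2 ^ padicValNat 2 (3 * m + 1) * Cm m = 3 * m + 1 := by
    unfold Cm
    exact Nat.mul_div_cancel' hdvd
  obtain ⟨f, hf⟩ : ∃ f, padicValNat 2 (3 * m + 1) = f + 1 := ⟨_, (Nat.sub_add_cancel hv).symm⟩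
  refine ⟨f, ?_, ?_⟩
  · have h3 := T_odd hm
    rw [hf, pow_succ] at hC
    have h4 : 2 * T m = 2 * (2 ^ f * Cm m) := by rw [h3, ← hC]; ring
    exact Nat.eq_of_mul_eq_mul_left (by norm_num) h4
  · rcases Nat.mod_two_eq_zero_or_one (Cm m) with h | h
    · exfalso
      obtain ⟨c, hc⟩ : 2 ∣ Cm m := Nat.dvd_of_mod_eq_zero h
      have h5 : 2 ^ (padicValNat 2 (3 * m + 1) + 1) ∣ 3 * m + 1 := by
        refine ⟨c, ?_⟩
        rw [hc] at hC
        rw [pow_succ, mul_assoc]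
        exact hC.symm
      exact pow_succ_padicValNat_not_dvd hne h5
    · exact h

/-- the odd part of `T^j m` is the iterate of `C` -/
theorem odd_form {m : ℕ} (hm : m % 2 = 1) (j : ℕ) :
    (∃ f, T^[j] m = 2 ^ f * Cm^[od j m] m) ∧ Cm^[od j m] m % 2 = 1 := by
  induction j with
  | zero => exact ⟨⟨0, by simp [od]⟩, by simpa [od] using hm⟩
  | succ j ih =>
    obtain ⟨⟨f, hf⟩, hodd⟩ := ih
    rw [Function.iterate_succ_apply', od_succ]
    rcases Nat.eq_zero_or_pos f with h0 | h0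
    · subst h0
      rw [pow_zero, one_mul] at hf
      rw [hf, hodd, Function.iterate_succ_apply']
      obtain ⟨g, hg1, hg2⟩ := T_odd_form hodd
      exact ⟨⟨g, hg1⟩, hg2⟩
    · obtain ⟨g, rfl⟩ : ∃ g, f = g + 1 := ⟨f - 1, by omega⟩
      have he : T^[j] m = 2 * (2 ^ g * Cm^[od j m] m) := by rw [hf, pow_succ]; ring
      have hev : (T^[j] m) % 2 = 0 := by rw [he]; omega
      rw [hev, add_zero, he, T_two_mul]
      exact ⟨⟨g, rfl⟩, hodd⟩

lemma Cm_le {m : ℕ} (hm : m % 2 = 1) (j : ℕ) : Cm^[od j m] m ≤ T^[j] m := by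
  obtain ⟨⟨f, hf⟩, -⟩ := odd_form hm j
  rw [hf]
  exact Nat.le_mul_of_pos_left _ (by positivity)

/-- the iterates of `C` are visited -/
theorem visited {m : ℕ} (hm : m % 2 = 1) : ∀ j i : ℕ, i < od j m → ∃ t < j, T^[t] m = Cm^[i] m := by
  intro j
  induction j with
  | zero => intro i hi; simp [od] at hi
  | succ j ih =>
    intro i hi
    rw [od_succ] at hi
    rcases Nat.lt_or_ge i (od j m) with h1 | h1
    · obtain ⟨t, ht, h2⟩ := ih i h1
      exact ⟨t, by omega, h2⟩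
    · have h2 : (T^[j] m) % 2 = 1 := by omega
      have h3 : i = od j m := by omega
      obtain ⟨⟨f, hf⟩, hodd⟩ := odd_form hm j
      rcases Nat.eq_zero_or_pos f with h0 | h0
      · subst h0
        rw [pow_zero, one_mul] at hf
        exact ⟨j, by omega, by rw [h3]; exact hf⟩
      · exfalso
        obtain ⟨g, rfl⟩ : ∃ g, f = g + 1 := ⟨f - 1, by omega⟩
        have he : T^[j] m = 2 * (2 ^ g * Cm^[od j m] m) := by rw [hf, pow_succ]; ring
        omega

/-- `min (h, L)`, where `h` is the least `k` with `C^k(m) ≤ y` (`∞` if there is none) -/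
noncomputable def hit (y : ℝ) (m L : ℕ) : ℕ := sInf {k : ℕ | ((Cm^[k] m : ℕ) : ℝ) ≤ y ∨ L ≤ k}

lemma hit_le_L (y : ℝ) (m L : ℕ) : hit y m L ≤ L := Nat.sInf_le (Or.inr le_rfl)

lemma hit_le {y : ℝ} {m L k : ℕ} (h : ((Cm^[k] m : ℕ) : ℝ) ≤ y) : hit y m L ≤ k := Nat.sInf_le (Or.inl h)

lemma hit_eq {y : ℝ} {m L j : ℕ} (hm : m % 2 = 1) (h1 : ((T^[j] m : ℕ) : ℝ) ≤ y)
    (h2 : ∀ i < j, y < (T^[i] m : ℕ)) (hL : od j m ≤ L) : hit y m L = od j m := by
  apply le_antisymm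
  · apply hit_le
    have := Cm_le hm j
    exact le_trans (by exact_mod_cast this) h1
  · have hmem : hit y m L ∈ {k : ℕ | ((Cm^[k] m : ℕ) : ℝ) ≤ y ∨ L ≤ k} := Nat.sInf_mem ⟨L, Or.inr le_rfl⟩
    rcases hmem with h3 | h3
    · by_contra hcon
      rw [not_le] at hcon
      obtain ⟨t, ht, h4⟩ := visited hm j _ hcon
      have h5 := h2 t ht
      rw [h4] at h5
      exact absurd h3 (not_le.2 h5)
    · exact hL.trans h3

/-- descending in the sense of `timeBad` bounds `hit` -/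
lemma hit_le_of_time {B y : ℝ} {m L : ℕ} (hB : 0 ≤ B) (hm : m % 2 = 1) (h : ¬ timeBad B y m) :
    (hit y m L : ℝ) ≤ B * Real.log m := by
  unfold timeBad at h
  rw [not_not] at h
  obtain ⟨j, h1, h2⟩ := h
  have h3 : hit y m L ≤ od j m := by
    apply hit_le
    have := Cm_le hm j
    exact le_trans (by exact_mod_cast this) h1
  have h4 : (hit y m L : ℝ) ≤ j := by exact_mod_cast h3.trans (od_le j m)
  have h5 : 0 ≤ Real.log ((T^[j] m : ℕ) : ℝ) := Real.log_natCast_nonneg _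
  refine h4.trans (h2.trans ?_)
  exact mul_le_mul_of_nonneg_left (by linarith) hB

/-- the number of odd steps until the passage below `y`, from the time -/
theorem od_at_passage {m j : ℕ} {y : ℝ} (hm : 1 ≤ m) (h1 : ((T^[j] m : ℕ) : ℝ) ≤ y)
    (h2 : ∀ i < j, y < (T^[i] m : ℕ)) (hj : (j : ℝ) ≤ (T^[j] m : ℕ)) :
    |(od j m : ℝ) * Real.log 3 - (j * Real.log 2 + Real.log (T^[j] m : ℕ) - Real.log m)| ≤ Real.log 2 := by
  have hm0 : (0 : ℝ) < m := by exact_mod_cast hm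
  have hv0 : 0 < T^[j] m := iter_pos hm j
  have hvR : (0 : ℝ) < (T^[j] m : ℕ) := by exact_mod_cast hv0
  have h3 := iter_eq j m
  have h4 : 2 * er j m ≤ j * 2 ^ j := er_le hm fun i hi => by
    have := h2 i hi
    have h5 : ((T^[j] m : ℕ) : ℝ) ≤ (T^[i] m : ℕ) := h1.trans this.le
    exact_mod_cast h5
  have h5 : (2 : ℝ) ^ j * (T^[j] m : ℕ) = 3 ^ od j m * m + er j m := by exact_mod_cast h3
  have h6 : 2 * (er j m : ℝ) ≤ j * 2 ^ j := by exact_mod_cast h4
  have h7 : 2 * (er j m : ℝ) ≤ 2 ^ j * (T^[j] m : ℕ) := by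
    have h8 : (j : ℝ) * 2 ^ j ≤ (T^[j] m : ℕ) * 2 ^ j := mul_le_mul_of_nonneg_right hj (by positivity)
    linarith
  have h8 : (3 : ℝ) ^ od j m * m ≤ 2 ^ j * (T^[j] m : ℕ) := by
    have : (0 : ℝ) ≤ er j m := Nat.cast_nonneg _
    linarith
  have h9 : (2 : ℝ) ^ j * (T^[j] m : ℕ) ≤ 2 * (3 ^ od j m * m) := by linarith
  have e1 : Real.log ((3 : ℝ) ^ od j m * m) = od j m * Real.log 3 + Real.log m := by
    rw [Real.log_mul (by positivity) hm0.ne', Real.log_pow]
  have e2 : Real.log ((2 : ℝ) ^ j * (T^[j] m : ℕ)) = j * Real.log 2 + Real.log (T^[j] m : ℕ) := by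
    rw [Real.log_mul (by positivity) hvR.ne', Real.log_pow]
  have h10 := Real.log_le_log (by positivity) h8
  have h11 := Real.log_le_log (by positivity) h9
  rw [e1, e2] at h10
  have e3 : Real.log (2 * ((3 : ℝ) ^ od j m * m)) = Real.log 2 + (od j m * Real.log 3 + Real.log m) := by
    rw [Real.log_mul (by norm_num) (by positivity), e1]
  rw [e2, e3] at h11
  have hl2 : 0 < Real.log 2 := Real.log_pos (by norm_num)
  rw [abs_le]
  constructor <;> linarith

end Pool.Agent.TH930.LT
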