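import Pool.Agent.Results.MP_f7abf1_nt.ModelRates
import Pool.Agent.H319R2.LlnMain

set_option autoImplicit false

/-! The points which do not descend by the factor `exp (-a K)` in `K = ⌊(1+τ)(i-1)⌋` steps. -/

namespace Pool.Agent.TH930.LT

open Finset Pool.Agent.Helper894.Collatz Pool.Agent.H377R2

/-- `g` is at least the relative entropy -/
lemma g_ge {p : ℝ} (hp0 : 0 < p) (hp1 : p < 1) :
    Real.log 2 - Real.binEntropy p ≤
      Pool.Agent.Results.MP_f7abf1_nt.ModelRates.g (Real.log 2 - p * Real.log 3) := by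
  have hq : 0 < 1 - p := by linarith
  have hl3 : 0 < Real.log 3 := Real.log_pos (by norm_num)
  have hbound : ∀ θ : ℝ, θ * (Real.log 2 - p * Real.log 3) -
      Real.log ((1 / 2) * ((2 : ℝ) ^ θ + (2 / 3 : ℝ) ^ θ)) ≤ Real.log 2 - Real.binEntropy p := by
    intro θ
    have hA : (0 : ℝ) < (1 / 2) * 2 ^ θ / (1 - p) := by positivity
    have hB : (0 : ℝ) < (1 / 2) * (2 / 3 : ℝ) ^ θ / p := by positivity
    have h1 := Real.geom_mean_le_arith_mean2_weighted hq.le hp0.le hA.le hB.le (by ring)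
    have h2 : (1 - p) * ((1 / 2) * 2 ^ θ / (1 - p)) + p * ((1 / 2) * (2 / 3 : ℝ) ^ θ / p) =
        (1 / 2) * ((2 : ℝ) ^ θ + (2 / 3 : ℝ) ^ θ) := by
      field_simp
    rw [h2] at h1
    have h3 := Real.log_le_log (by positivity) h1
    rw [Real.log_mul (by positivity) (by positivity), Real.log_rpow hA, Real.log_rpow hB,
      Real.log_div (by positivity) (by positivity), Real.log_div (by positivity) (by positivity),
      Real.log_mul (by norm_num) (by positivity), Real.log_mul (by norm_num) (by positivity),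
      Real.log_rpow (by norm_num), Real.log_rpow (by norm_num)] at h3
    have h4 : Real.log (1 / 2) = -Real.log 2 := by rw [one_div, Real.log_inv]
    have h5 : Real.log (2 / 3) = Real.log 2 - Real.log 3 := Real.log_div (by norm_num) (by norm_num)
    rw [h4, h5] at h3
    unfold Real.binEntropy
    rw [Real.log_inv, Real.log_inv]
    nlinarith
  unfold Pool.Agent.Results.MP_f7abf1_nt.ModelRates.g
  have hbdd : BddAbove (Set.range fun θ : ℝ => (θ * (Real.log 2 - p * Real.log 3) -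
      Real.log ((1 / 2) * ((2 : ℝ) ^ θ + (2 / 3 : ℝ) ^ θ)))) := by
    refine ⟨Real.log 2 - Real.binEntropy p, ?_⟩
    rintro _ ⟨θ, rfl⟩
    exact hbound θ
  set θ : ℝ := (Real.log (1 - p) - Real.log p) / Real.log 3 with hθ
  refine le_trans (le_of_eq ?_) (le_ciSup hbdd θ)
  have hθ3 : θ * Real.log 3 = Real.log (1 - p) - Real.log p := by rw [hθ]; field_simp
  -- `(2/3)^θ = 2^θ p / (1-p)`
  have h1 : (2 / 3 : ℝ) ^ θ = 2 ^ θ * (p / (1 - p)) := by
    rw [Real.div_rpow (by norm_num) (by norm_num)]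
    have h3 : (3 : ℝ) ^ θ = (1 - p) / p := by
      rw [Real.rpow_def_of_pos (by norm_num), mul_comm, hθ3, Real.exp_sub, Real.exp_log hq,
        Real.exp_log hp0]
    rw [h3]
    field_simp
  have h2 : (1 / 2) * ((2 : ℝ) ^ θ + (2 / 3 : ℝ) ^ θ) = 2 ^ θ / (2 * (1 - p)) := by
    rw [h1]; field_simp; ring
  rw [h2, Real.log_div (by positivity) (by positivity), Real.log_rpow (by norm_num),
    Real.log_mul (by norm_num) hq.ne']
  unfold Real.binEntropy
  rw [Real.log_inv, Real.log_inv]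
  have e : θ * (Real.log 2 - p * Real.log 3) = θ * Real.log 2 - p * (θ * Real.log 3) := by ring
  rw [e, hθ3]
  ring

/-- the time -/
noncomputable def Kt (τ : ℝ) (i : ℕ) : ℕ := ⌊(1 + τ) * ((i - 1 : ℕ) : ℝ)⌋₊

open scoped Classical in
/-- the points of level `i` which do not descend by `exp (-a K)` -/
noncomputable def Qs (τ a : ℝ) (i : ℕ) : Finset ℕ :=
  (range (2 ^ i)).filter fun z => 2 ^ i ≤ 2 * z ∧
    (z : ℝ) * Real.exp (-(a * Kt τ i)) ≤ (T^[Kt τ i] z : ℕ)

lemma mem_Qs {τ a : ℝ} {i z : ℕ} : z ∈ Qs τ a i ↔ z < 2 ^ i ∧ 2 ^ i ≤ 2 * z ∧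
    (z : ℝ) * Real.exp (-(a * Kt τ i)) ≤ (T^[Kt τ i] z : ℕ) := by
  classical
  unfold Qs
  rw [mem_filter, mem_range]

lemma Kt_ge {τ : ℝ} (hτ : 0 ≤ τ) (i : ℕ) : i - 1 ≤ Kt τ i := by
  unfold Kt
  apply Nat.le_floor
  have : (0 : ℝ) ≤ ((i - 1 : ℕ) : ℝ) := Nat.cast_nonneg _
  nlinarith

/-- the excess exponent -/
noncomputable def Et (τ : ℝ) : ℝ := Real.exp (-((1 / 4) / (4000 * τ)))

/-- the saving -/
noncomputable def cs (τ p : ℝ) : ℝ := (1 + τ) * (1 - Real.binEntropy p / Real.log 2) - Et τ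

lemma card_Qs {τ p : ℝ} (hτ0 : 0 < τ) (hτ : τ ≤ (1 / 4) / 1000000) (hp0 : 1 / 2 ≤ p) (hp1 : p ≤ 7 / 10) :
    ∃ C : ℝ, 0 < C ∧ ∀ c : ℝ, c ≤ cs τ p → ∀ i : ℕ, 1 ≤ i →
      ((Qs τ (Real.log 2 - p * Real.log 3) i).card : ℝ) ≤ C * ((2 : ℝ) ^ i) ^ (1 - c) := by
  classical
  obtain ⟨C, hC, h⟩ := Pool.Agent.Results.MP_f7abf1_nt.ModelRates.result (1 / 4) τ (by norm_num) le_rfl
    hτ0 hτ
  set a : ℝ := Real.log 2 - p * Real.log 3 with ha
  have hl2 := Real.log_two_lt_d9
  have hl2' := Real.log_two_gt_d9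
  have hl0 : 0 < Real.log 2 := by linarith
  have hl3 : 0 < Real.log 3 := Real.log_pos (by norm_num)
  have hE0 : 0 < Et τ := Real.exp_pos _
  have hE1 : Et τ ≤ 1 := by
    unfold Et
    rw [Real.exp_le_one_iff]
    have : 0 < (1 / 4) / (4000 * τ) := by positivity
    linarith
  have hp00 : 0 < p := by linarith
  have hp11 : p < 1 := by linarith
  have hl3a : Real.log 3 ≤ (159 / 100) * Real.log 2 := by
    have h6 : Real.log ((3 : ℝ) ^ 100) ≤ Real.log ((2 : ℝ) ^ 159) :=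
      Real.log_le_log (by norm_num) (by norm_num)
    rw [Real.log_pow, Real.log_pow] at h6
    push_cast at h6
    linarith
  have hl3b : 1 ≤ Real.log 3 := by
    have h6 : Real.log ((2 : ℝ) ^ 3) ≤ Real.log ((3 : ℝ) ^ 2) :=
      Real.log_le_log (by norm_num) (by norm_num)
    rw [Real.log_pow, Real.log_pow] at h6
    push_cast at h6
    linarith
  have e32 : Real.log (3 / 2) = Real.log 3 - Real.log 2 := Real.log_div (by norm_num) (by norm_num)
  have e43 : Real.log (4 / 3) = 2 * Real.log 2 - Real.log 3 := by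
    rw [Real.log_div (by norm_num) (by norm_num), show (4 : ℝ) = 2 ^ 2 by norm_num, Real.log_pow]
    push_cast; ring
  have ha1 : -Real.log (3 / 2) + 1 / 4 ≤ a := by
    rw [e32, ha]
    nlinarith
  have ha2 : a ≤ 1 / 2 * Real.log (4 / 3) := by
    rw [e43, ha]
    nlinarith
  set R : ℝ := Real.log 2 - Real.binEntropy p with hR
  have hR0 : 0 ≤ R := by
    have := Real.binEntropy_le_log_two (p := p)
    linarith
  have hR1 : R ≤ Real.log 2 := by
    have := Real.binEntropy_nonneg hp00.le hp11.le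
    linarith
  have hg : R ≤ Pool.Agent.Results.MP_f7abf1_nt.ModelRates.g a := g_ge hp00 hp11
  refine ⟨2 * C + 1, by linarith, ?_⟩
  intro c hc i hi
  obtain ⟨j, rfl⟩ : ∃ j, i = j + 1 := ⟨i - 1, by omega⟩
  have hK : Kt τ (j + 1) = ⌊(1 + τ) * (j : ℝ)⌋₊ := by unfold Kt; rw [Nat.add_sub_cancel]
  have hjn : (0 : ℝ) ≤ j := Nat.cast_nonneg j
  have hKle : (Kt τ (j + 1) : ℝ) ≤ (1 + τ) * j := by rw [hK]; exact Nat.floor_le (by positivity)
  have hKge : (1 + τ) * j - 1 ≤ (Kt τ (j + 1) : ℝ) := by rw [hK]; exact (Nat.sub_one_lt_floor _).le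
  have hlb : Real.logb 2 ((2 : ℝ) ^ j) = j := by
    rw [Real.logb_pow, Real.logb_self_eq_one (by norm_num), mul_one]
  have hx1 : (1 : ℝ) ≤ (2 : ℝ) ^ j := one_le_pow₀ (by norm_num)
  have h1 := (h ((2 : ℝ) ^ j) hx1 (Kt τ (j + 1)) (by rw [hlb]; exact hKle)).1 a ha1 ha2 (2 ^ j)
    (by push_cast; exact le_rfl)
  set A : Set ℕ := {n : ℕ | 2 ^ j < n ∧ (n : ℝ) ≤ ((2 ^ j : ℕ) : ℝ) + 2 ^ j ∧
    (n : ℝ) * Real.exp (-(a * Kt τ (j + 1))) ≤
      (Pool.Agent.Results.MP_f7abf1_nt.ModelRates.T^[Kt τ (j + 1)] n : ℕ)} with hA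
  have hAfin : A.Finite := by
    apply (Set.finite_Iic (2 ^ (j + 1))).subset
    rintro n ⟨-, h2, -⟩
    rw [Set.mem_Iic]
    have : (n : ℝ) ≤ ((2 ^ (j + 1) : ℕ) : ℝ) := by
      push_cast at h2 ⊢
      rw [pow_succ]; linarith
    exact_mod_cast this
  have hsub : Qs τ a (j + 1) ⊆ insert (2 ^ j) hAfin.toFinset := by
    intro z hz
    rw [mem_Qs] at hz
    obtain ⟨z1, z2, z3⟩ := hz
    rw [mem_insert, Set.Finite.mem_toFinset]
    rcases eq_or_ne z (2 ^ j) with h2 | h2
    · exact Or.inl h2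
    · right
      have h3 : 2 ^ (j + 1) = 2 * 2 ^ j := by rw [pow_succ, mul_comm]
      refine ⟨by omega, ?_, z3⟩
      have : (z : ℝ) ≤ ((2 ^ (j + 1) : ℕ) : ℝ) := by exact_mod_cast z1.le
      push_cast at this ⊢
      rw [pow_succ] at this
      linarith
  have h2 : ((Qs τ a (j + 1)).card : ℝ) ≤ (A.ncard : ℝ) + 1 := by
    have h3 := (card_le_card hsub).trans (card_insert_le _ _)
    rw [← Set.ncard_eq_toFinset_card A hAfin] at h3
    exact_mod_cast h3
  -- the target exponent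
  have hxr : ((2 : ℝ) ^ (j + 1)) ^ (1 - c) = Real.exp ((j + 1) * Real.log 2 * (1 - c)) := by
    rw [Real.rpow_def_of_pos (by positivity), Real.log_pow]
    push_cast; ring_nf
  have hcs : cs τ p * Real.log 2 = (1 + τ) * R - Et τ * Real.log 2 := by
    unfold cs
    rw [hR]
    field_simp
  have hc1 : c ≤ 1 := by
    have h3 : cs τ p ≤ 1 := by
      unfold cs
      have h4 : Real.binEntropy p / Real.log 2 = 1 - R / Real.log 2 := by
        rw [hR]; field_simp; ring
      rw [h4]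
      have h5 : R / Real.log 2 ≤ 3 / 10 := by
        rw [div_le_iff₀ hl0]
        have h6 : Real.log 2 * (7 / 10) ≤ Real.binEntropy p := by
          have h7 : Real.binEntropy (7 / 10) ≤ Real.binEntropy p := by
            have h8 := Real.binEntropy_strictAntiOn.antitoneOn (a := p) (b := 7 / 10)
              ⟨by norm_num; linarith, by linarith⟩ ⟨by norm_num, by norm_num⟩ hp1
            exact h8
          refine le_trans ?_ h7
          unfold Real.binEntropy
          have h8 : Real.log (1 - 7 / 10 : ℝ)⁻¹ * 10 ≥ 17 * Real.log 2 := by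
            have : Real.log ((1 - 7 / 10 : ℝ)⁻¹ ^ 10) ≥ Real.log (2 ^ 17) :=
              Real.log_le_log (by norm_num) (by norm_num)
            rw [Real.log_pow, Real.log_pow] at this
            push_cast at this
            linarith
          have h9 : Real.log (7 / 10 : ℝ)⁻¹ * 2 ≥ Real.log 2 := by
            have : Real.log ((7 / 10 : ℝ)⁻¹ ^ 2) ≥ Real.log 2 := Real.log_le_log (by norm_num) (by norm_num)
            rw [Real.log_pow] at this
            push_cast at this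
            linarith
          linarith
        linarith
      nlinarith
    linarith
  have h3 : C * ((2 : ℝ) ^ j) ^ (1 + Real.exp (-(1 / 4 / (4000 * τ)))) *
      Real.exp (-((Kt τ (j + 1) : ℝ) * Pool.Agent.Results.MP_f7abf1_nt.ModelRates.g a)) ≤
      2 * C * ((2 : ℝ) ^ (j + 1)) ^ (1 - c) := by
    have e2 : (2 : ℝ) * C = C * Real.exp (Real.log 2) := by rw [Real.exp_log (by norm_num)]; ring
    rw [hxr, Real.rpow_def_of_pos (by positivity), Real.log_pow, e2, mul_assoc C, mul_assoc C, ← Real.exp_add,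
      ← Real.exp_add]
    apply mul_le_mul_of_nonneg_left _ hC.le
    apply Real.exp_le_exp.2
    have h4 : ((1 + τ) * j - 1) * R ≤ Kt τ (j + 1) * Pool.Agent.Results.MP_f7abf1_nt.ModelRates.g a := by
      calc ((1 + τ) * j - 1) * R ≤ Kt τ (j + 1) * R := mul_le_mul_of_nonneg_right hKge hR0
        _ ≤ _ := mul_le_mul_of_nonneg_left hg (Nat.cast_nonneg _)
    have h5 : j * (c * Real.log 2) ≤ j * ((1 + τ) * R - Et τ * Real.log 2) := by
      apply mul_le_mul_of_nonneg_left _ hjn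
      rw [← hcs]
      exact mul_le_mul_of_nonneg_right hc hl0.le
    have e3 : Real.exp (-(1 / 4 / (4000 * τ))) = Et τ := rfl
    rw [e3]
    have h6 : 0 ≤ Real.log 2 * (1 - c) := mul_nonneg hl0.le (by linarith)
    nlinarith
  have h4 : 1 ≤ ((2 : ℝ) ^ (j + 1)) ^ (1 - c) := Real.one_le_rpow (one_le_pow₀ (by norm_num)) (by linarith)
  calc ((Qs τ a (j + 1)).card : ℝ) ≤ (A.ncard : ℝ) + 1 := h2
    _ ≤ 2 * C * ((2 : ℝ) ^ (j + 1)) ^ (1 - c) + ((2 : ℝ) ^ (j + 1)) ^ (1 - c) :=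
        add_le_add (h1.trans h3) h4
    _ = _ := by ring

end Pool.Agent.TH930.LT
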