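import Pool.Agent.TH930.LT.Rate

set_option autoImplicit false

/-! The stuck points with a late large value. -/

namespace Pool.Agent.TH930.LT

open Finset Pool.Agent.Helper894.Collatz Pool.Agent.H377R2

lemma T_le_two {n : ℕ} (h : 0 < n) : T n ≤ 2 * n := by
  unfold T; split_ifs <;> omega

lemma iter_le_two {n : ℕ} (h : 0 < n) (r : ℕ) : T^[r] n ≤ 2 ^ r * n := by
  induction r with
  | zero => simp
  | succ r ih =>
    rw [Function.iterate_succ_apply']
    calc T (T^[r] n) ≤ 2 * T^[r] n := T_le_two (iter_pos h r)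
      _ ≤ 2 * (2 ^ r * n) := Nat.mul_le_mul_left _ ih
      _ = 2 ^ (r + 1) * n := by ring

open scoped Classical in
/-- the stuck points of level `i` with a value above `V` at a time in `(i, K]` -/
noncomputable def Wd (τ V : ℝ) (i : ℕ) : Finset ℕ :=
  (stuck i i).filter fun z => ∃ s, i < s ∧ s ≤ Kt τ i ∧ V < (T^[s] z : ℕ)

lemma mem_Wd {τ V : ℝ} {i z : ℕ} : z ∈ Wd τ V i ↔ z ∈ stuck i i ∧
    ∃ s, i < s ∧ s ≤ Kt τ i ∧ V < (T^[s] z : ℕ) := by
  classical
  unfold Wd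
  rw [mem_filter]

lemma Kt_sub_le {τ : ℝ} (hτ0 : 0 < τ) (i : ℕ) : ((Kt τ i - i : ℕ) : ℝ) ≤ τ * i := by
  rcases le_or_gt (Kt τ i) i with h | h
  · rw [Nat.sub_eq_zero_of_le h, Nat.cast_zero]; positivity
  · rw [Nat.cast_sub h.le]
    have h1 : (Kt τ i : ℝ) ≤ (1 + τ) * ((i - 1 : ℕ) : ℝ) := Nat.floor_le (by positivity)
    have h2 : ((i - 1 : ℕ) : ℝ) ≤ i := by exact_mod_cast Nat.sub_le _ _
    nlinarith

/-- the number of the points of `Wd` -/
lemma card_Wd {τ : ℝ} (hτ0 : 0 < τ) (hτ : τ ≤ (1 / 4) / 1000000) {V : ℝ} (hV : 0 < V) (i : ℕ) :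
    ((Wd τ V i).card : ℝ) ≤ ((2 : ℝ) ^ i) ^ ((47 : ℝ) / 50) + 2 * (4 ^ i / V) := by
  classical
  have h2i : (0 : ℝ) < 2 ^ i := by positivity
  rcases le_or_gt (V * rho ^ i) (2 ^ i) with hc | hc
  · have h1 : ((Wd τ V i).card : ℝ) ≤ (stuck i i).card := by
      exact_mod_cast card_le_card (filter_subset _ _)
    have h2 := card_stuck i i le_rfl
    have h3 : (2 : ℝ) * 2 ^ i * rho ^ i ≤ 2 * (4 ^ i / V) := by
      have e : (4 : ℝ) ^ i = 2 ^ i * 2 ^ i := by rw [← mul_pow]; norm_num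
      rw [mul_assoc]
      apply mul_le_mul_of_nonneg_left _ (by norm_num)
      rw [le_div_iff₀ hV, e]
      calc (2 : ℝ) ^ i * rho ^ i * V = 2 ^ i * (V * rho ^ i) := by ring
        _ ≤ _ := mul_le_mul_of_nonneg_left hc h2i.le
    have h4 : 0 ≤ ((2 : ℝ) ^ i) ^ ((47 : ℝ) / 50) := by positivity
    linarith
  · -- `V ^ 41 > 2 ^ (43 i)`
    have hV41 : (2 : ℝ) ^ (43 * i) < V ^ 41 := by
      have h1 : ((2 : ℝ) ^ i) ^ 41 < (V * rho ^ i) ^ 41 := pow_lt_pow_left₀ hc h2i.le (by norm_num)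
      have h2 : (rho ^ i) ^ 41 ≤ (1 / 4) ^ i := by
        rw [← pow_mul, mul_comm i 41, pow_mul]
        exact pow_le_pow_left₀ (pow_nonneg rho_pos.le _) rho_pow i
      rw [mul_pow] at h1
      have h3 : V ^ 41 * (rho ^ i) ^ 41 ≤ V ^ 41 * (1 / 4) ^ i :=
        mul_le_mul_of_nonneg_left h2 (by positivity)
      have h4 : ((2 : ℝ) ^ i) ^ 41 < V ^ 41 * (1 / 4) ^ i := lt_of_lt_of_le h1 h3
      have e1 : (2 : ℝ) ^ (43 * i) = ((2 : ℝ) ^ i) ^ 41 * 4 ^ i := by
        rw [← pow_mul, show (4 : ℝ) = 2 ^ 2 by norm_num, ← pow_mul, ← pow_add]; congr 1; ring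
      rw [e1]
      calc ((2 : ℝ) ^ i) ^ 41 * 4 ^ i < V ^ 41 * (1 / 4) ^ i * 4 ^ i :=
            mul_lt_mul_of_pos_right h4 (by positivity)
        _ = V ^ 41 := by rw [mul_assoc, ← mul_pow]; norm_num
    set D := Kt τ i - i with hD
    have hDi : 41000 * D ≤ i := by
      have h1 := Kt_sub_le hτ0 i
      have h2 : (41000 : ℝ) * (D : ℝ) ≤ i := by
        have hin : (0 : ℝ) ≤ i := Nat.cast_nonneg i
        rw [← hD] at h1
        nlinarith
      exact_mod_cast h2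
    set w : ℝ := Real.sqrt 3 with hw
    have hw2 : w ^ 2 = 3 := Real.sq_sqrt (by norm_num)
    have hw0 : 0 < w := Real.sqrt_pos.2 (by norm_num)
    -- each point has many odd steps
    have key : ∀ z ∈ Wd τ V i, ((2 : ℝ) ^ i) ^ ((42999 : ℝ) / 82000) ≤ w ^ od i z := by
      intro z hz
      rw [mem_Wd] at hz
      obtain ⟨hst, s, hs1, hs2, hs3⟩ := hz
      rw [stuck, mem_filter, mem_range] at hst
      have hz0 : 0 < z := by have : 0 < 2 ^ i := by positivity
                             omega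
      obtain ⟨r, rfl⟩ := Nat.exists_eq_add_of_le hs1.le
      have h1 : T^[i + r] z ≤ 2 ^ r * T^[i] z := by
        rw [add_comm, Function.iterate_add_apply]
        exact iter_le_two (iter_pos hz0 i) r
      have h2 := lt_pow i z 1 (by rw [mul_one]; exact hst.1)
      rw [mul_one] at h2
      have hrD : r ≤ D := by omega
      have h3 : T^[i + r] z ≤ 2 ^ D * 3 ^ od i z := by
        refine h1.trans (Nat.mul_le_mul (Nat.pow_le_pow_right (by norm_num) hrD) h2.le)
      have h4 : V < 2 ^ D * (w ^ od i z) ^ 2 := by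
        have h5 : ((T^[i + r] z : ℕ) : ℝ) ≤ 2 ^ D * 3 ^ od i z := by exact_mod_cast h3
        rw [← pow_mul, mul_comm (od i z) 2, pow_mul, hw2]
        linarith
      have h5 : (2 : ℝ) ^ (42999 * i) ≤ (w ^ od i z) ^ 82000 := by
        have h6 : V ^ 41000 ≤ (2 ^ D * (w ^ od i z) ^ 2) ^ 41000 := pow_le_pow_left₀ hV.le h4.le _
        have h7 : ((2 : ℝ) ^ (43 * i)) ^ 1000 ≤ (V ^ 41) ^ 1000 := pow_le_pow_left₀ (by positivity) hV41.le _
        rw [← pow_mul V, show 41 * 1000 = 41000 by norm_num, ← pow_mul] at h7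
        rw [mul_pow, ← pow_mul, ← pow_mul] at h6
        have h8 : (2 : ℝ) ^ (D * 41000) ≤ 2 ^ i := pow_le_pow_right₀ (by norm_num) (by omega)
        have h9 : (2 : ℝ) ^ (42999 * i) * 2 ^ i ≤ 2 ^ i * (w ^ od i z) ^ 82000 := by
          calc (2 : ℝ) ^ (42999 * i) * 2 ^ i = 2 ^ (43 * i * 1000) := by rw [← pow_add]; congr 1; ring
            _ ≤ V ^ 41000 := h7
            _ ≤ 2 ^ (D * 41000) * (w ^ od i z) ^ (2 * 41000) := h6
            _ ≤ 2 ^ i * (w ^ od i z) ^ 82000 := by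
                rw [show 2 * 41000 = 82000 by norm_num]
                exact mul_le_mul_of_nonneg_right h8 (by positivity)
        rw [mul_comm] at h9
        exact le_of_mul_le_mul_left h9 h2i
      have h6 : ((2 : ℝ) ^ i) ^ ((42999 : ℝ) / 82000) = ((2 : ℝ) ^ (42999 * i)) ^ ((1 : ℝ) / 82000) := by
        rw [mul_comm, pow_mul, ← Real.rpow_natCast ((2 : ℝ) ^ i) 42999, ← Real.rpow_mul (by positivity)]
        norm_num
      have h7 : w ^ od i z = ((w ^ od i z) ^ 82000) ^ ((1 : ℝ) / 82000) := by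
        rw [← Real.rpow_natCast (w ^ od i z) 82000, ← Real.rpow_mul (by positivity)]
        norm_num
      rw [h6, h7]
      exact Real.rpow_le_rpow (by positivity) h5 (by norm_num)
    have hsum : ((Wd τ V i).card : ℝ) * ((2 : ℝ) ^ i) ^ ((42999 : ℝ) / 82000) ≤ (1 + w) ^ i := by
      rw [← sum_pow_od, ← nsmul_eq_mul, ← sum_const]
      refine (sum_le_sum key).trans ?_
      apply sum_le_sum_of_subset_of_nonneg
      · intro z hz
        rw [mem_Wd, stuck, mem_filter] at hz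
        exact hz.1.1
      · intro z _ _; positivity
    have hnum : (1 + w) ≤ (2 : ℝ) ^ ((73 : ℝ) / 50) := by
      have h1 : w ≤ 1.7321 := by
        rw [hw, Real.sqrt_le_left (by norm_num)]; norm_num
      have h2 : (1 + w) ^ 50 ≤ 2 ^ 73 := by
        calc (1 + w) ^ 50 ≤ 2.7321 ^ 50 := pow_le_pow_left₀ (by linarith) (by linarith) _
          _ ≤ 2 ^ 73 := by norm_num
      have h3 : (2 : ℝ) ^ ((73 : ℝ) / 50) = ((2 : ℝ) ^ 73) ^ ((1 : ℝ) / 50) := by
        rw [← Real.rpow_natCast 2 73, ← Real.rpow_mul (by norm_num)]; norm_num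
      have h4 : (1 + w) = ((1 + w) ^ 50) ^ ((1 : ℝ) / 50) := by
        rw [← Real.rpow_natCast (1 + w) 50, ← Real.rpow_mul (by positivity)]; norm_num
      rw [h3, h4]
      exact Real.rpow_le_rpow (by positivity) h2 (by norm_num)
    have hfin : (1 + w) ^ i ≤ ((2 : ℝ) ^ i) ^ ((47 : ℝ) / 50) * ((2 : ℝ) ^ i) ^ ((42999 : ℝ) / 82000) := by
      rw [← Real.rpow_add h2i]
      calc (1 + w) ^ i ≤ ((2 : ℝ) ^ ((73 : ℝ) / 50)) ^ i := pow_le_pow_left₀ (by positivity) hnum i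
        _ = ((2 : ℝ) ^ i) ^ ((73 : ℝ) / 50) := by
            rw [← Real.rpow_natCast, ← Real.rpow_natCast, ← Real.rpow_mul (by norm_num),
              ← Real.rpow_mul (by norm_num), mul_comm]
        _ ≤ _ := Real.rpow_le_rpow_of_exponent_le (one_le_pow₀ (by norm_num)) (by norm_num)
    have h1 : ((Wd τ V i).card : ℝ) ≤ ((2 : ℝ) ^ i) ^ ((47 : ℝ) / 50) :=
      le_of_mul_le_mul_right (hsum.trans hfin) (by positivity)
    have h2 : 0 ≤ 2 * ((4 : ℝ) ^ i / V) := by positivity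
    linarith

end Pool.Agent.TH930.LT
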